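import Pool.Agent.Lib.MP_688fd0_co.TE.Iface3

/-!
# Theorem E, module LOW: (3.4)
-/

set_option autoImplicit false
set_option linter.unusedSectionVars false

namespace Pool.Agent.Lib.MP_688fd0_co.TE.H35

open Pool.Agent.Lib.MP_688fd0_co.TE

universe u v

/-! ### sums over lists -/

section sumL

variable {S : Type*} [Fintype S]

theorem sumL_mono (n : ℕ) : ∀ (F H : List S → ℝ), (∀ l, l.length = n → F l ≤ H l) →
    sumL n F ≤ sumL n H := by
  induction n with
  | zero => intro F H h; exact h [] rfl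
  | succ n ih =>
    intro F H h
    exact Finset.sum_le_sum fun s _ => ih _ _ fun l hl => h (s :: l) (by simp [hl])

theorem sumL_add (n : ℕ) : ∀ (F H : List S → ℝ),
    sumL n (fun l => F l + H l) = sumL n F + sumL n H := by
  induction n with
  | zero => intro F H; rfl
  | succ n ih =>
    intro F H
    simp only [sumL]
    rw [← Finset.sum_add_distrib]
    exact Finset.sum_congr rfl fun s _ => ih _ _

theorem sumL_mul (n : ℕ) (c : ℝ) : ∀ (F : List S → ℝ),
    sumL n (fun l => c * F l) = c * sumL n F := by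
  induction n with
  | zero => intro F; rfl
  | succ n ih =>
    intro F
    simp only [sumL]
    rw [Finset.mul_sum]
    exact Finset.sum_congr rfl fun s _ => ih _

theorem sumL_sum {κ : Type*} (t : Finset κ) (n : ℕ) : ∀ (F : κ → List S → ℝ),
    sumL n (fun l => ∑ i ∈ t, F i l) = ∑ i ∈ t, sumL n (F i) := by
  induction n with
  | zero => intro F; rfl
  | succ n ih =>
    intro F
    simp only [sumL]
    rw [Finset.sum_comm]
    exact Finset.sum_congr rfl fun s _ => ih _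

theorem sumL_congr (n : ℕ) (F H : List S → ℝ) (h : ∀ l, F l = H l) :
    sumL n F = sumL n H := by
  rw [show F = H from funext h]

theorem sumL_nonneg (n : ℕ) : ∀ (F : List S → ℝ), (∀ l, 0 ≤ F l) → 0 ≤ sumL n F := by
  induction n with
  | zero => intro F h; exact h []
  | succ n ih =>
    intro F h
    exact Finset.sum_nonneg fun s _ => ih _ fun l => h _

end sumL

/-! ### probability -/

section pr

variable {Ω : Type*} [Fintype Ω] {μ : Ω → ℝ}

theorem pr_mono (hμ : ∀ ω, 0 ≤ μ ω) {E F : Ω → Prop} (h : ∀ ω, E ω → F ω) : Pr μ E ≤ Pr μ F :=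
  Finset.sum_le_sum fun ω _ => mul_le_mul_of_nonneg_left (ind_mono (h ω)) (hμ ω)

theorem ind_or (p q : Prop) : ind (p ∨ q) ≤ ind p + ind q := by
  by_cases hp : p
  · rw [ind_of (Or.inl hp), ind_of hp]
    linarith [ind_nonneg q]
  · by_cases hq : q
    · rw [ind_of (Or.inr hq), ind_of hq]
      linarith [ind_nonneg p]
    · rw [ind_not (fun h => h.elim hp hq)]
      linarith [ind_nonneg p, ind_nonneg q]

theorem pr_or (hμ : ∀ ω, 0 ≤ μ ω) (E F : Ω → Prop) :
    Pr μ (fun ω => E ω ∨ F ω) ≤ Pr μ E + Pr μ F := by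
  rw [Pr, Pr, Pr, ← Finset.sum_add_distrib]
  refine Finset.sum_le_sum fun ω _ => ?_
  rw [← mul_add]
  exact mul_le_mul_of_nonneg_left (ind_or _ _) (hμ ω)

theorem pr_false {E : Ω → Prop} (h : ∀ ω, ¬ E ω) : Pr μ E = 0 :=
  Finset.sum_eq_zero fun ω _ => by rw [ind_not (h ω), mul_zero]

theorem pr_markov (hμ : ∀ ω, 0 ≤ μ ω) (f : Ω → ℝ) (hf : ∀ ω, 0 ≤ f ω) {c : ℝ} (hc : 0 < c) :
    Pr μ (fun ω => c ≤ f ω) ≤ Ex μ f / c := by
  rw [le_div_iff₀ hc, Pr, Ex, Finset.sum_mul]
  refine Finset.sum_le_sum fun ω _ => ?_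
  rw [mul_assoc]
  refine mul_le_mul_of_nonneg_left ?_ (hμ ω)
  by_cases h : c ≤ f ω
  · rw [ind_of h, one_mul]; exact h
  · rw [ind_not h, zero_mul]; exact hf ω

theorem ex_add (f g : Ω → ℝ) : Ex μ (fun ω => f ω + g ω) = Ex μ f + Ex μ g := by
  rw [Ex, Ex, Ex, ← Finset.sum_add_distrib]
  exact Finset.sum_congr rfl fun ω _ => mul_add _ _ _

end pr

/-! ### the model -/

section model

variable {V : Type u} {Val : Type v} [Fintype V] [Fintype Val] [DecidableEq V] {a : ℕ}
  (M : LM V Val a)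

theorem pw_nonneg : ∀ (l : List (V × Val)) (j : ℕ) (x y : V), 0 ≤ M.pw j x l y
  | [], j, x, y => M.hC0 j x y
  | s :: l, j, x, y => mul_nonneg (mul_nonneg (M.hC0 _ _ _) (M.hk0 _ _ _)) (pw_nonneg l _ _ _)

theorem xw_nonneg (ω : Fld a V Val) : ∀ (l : List (V × Val)) (j : ℕ), 0 ≤ M.xw ω j l
  | [], _ => zero_le_one
  | s :: l, j => mul_nonneg (div_nonneg (ind_nonneg _) (M.hP0 _ _)) (xw_nonneg ω l _)

/-- `w` is a vertex of `z` -/
def vz (z : List (V × Val)) (w : V) : Prop :=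
  ∃ (i : ℕ) (s : V × Val), z[i]? = some s ∧ (s.1 = w ∨ M.ex s.1 s.2 = w)

theorem sum_ind_eq (v : V) : ∑ w, ind (v = w) = 1 := by
  classical
  rw [Finset.sum_eq_single v]
  · exact ind_of rfl
  · intro b _ hb
    exact ind_not (Ne.symm hb)
  · intro h
    exact absurd (Finset.mem_univ _) h

theorem sum_ind_mul (v : V) (h : V → ℝ) : ∑ w, ind (v = w) * h w = h v := by
  classical
  rw [Finset.sum_eq_single v]
  · rw [ind_of rfl, one_mul]
  · intro b _ hb
    rw [ind_not (Ne.symm hb), zero_mul]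
  · intro h
    exact absurd (Finset.mem_univ _) h

theorem sum_vz (z : List (V × Val)) : ∑ w, ind (vz M z w) ≤ 2 * (z.length : ℝ) := by
  induction z with
  | nil =>
    rw [Finset.sum_eq_zero]
    · simp
    · intro w _
      refine ind_not ?_
      rintro ⟨i, s, h, _⟩
      simp at h
  | cons s l ih =>
    have h1 : ∀ w, ind (vz M (s :: l) w) ≤ ind (s.1 = w) + ind (M.ex s.1 s.2 = w) +
        ind (vz M l w) := by
      intro w
      refine le_trans (ind_mono (q := (s.1 = w ∨ M.ex s.1 s.2 = w) ∨ vz M l w) ?_)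
        (le_trans (ind_or _ _) (add_le_add (ind_or _ _) le_rfl))
      rintro ⟨i, s', h, h'⟩
      cases i with
      | zero =>
        rw [List.getElem?_cons_zero, Option.some.injEq] at h
        subst h
        exact Or.inl h'
      | succ i =>
        rw [List.getElem?_cons_succ] at h
        exact Or.inr ⟨i, s', h, h'⟩
    calc ∑ w, ind (vz M (s :: l) w)
        ≤ ∑ w, (ind (s.1 = w) + ind (M.ex s.1 s.2 = w) + ind (vz M l w)) :=
          Finset.sum_le_sum fun w _ => h1 w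
      _ = 1 + 1 + ∑ w, ind (vz M l w) := by
          rw [Finset.sum_add_distrib, Finset.sum_add_distrib, sum_ind_eq, sum_ind_eq]
      _ ≤ 2 * ((s :: l).length : ℝ) := by
          rw [List.length_cons]
          push_cast
          linarith

/-- the law `h` of the vertices of the walk -/
noncomputable def hv (x y : V) (w : V) : ℝ :=
  sumL a (fun z => M.pw 0 x z y * ind (vz M z w)) / M.fk 0 a x y

theorem hv_nonneg (x y w : V) (hf : 0 < M.fk 0 a x y) : 0 ≤ hv M x y w :=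
  div_nonneg (sumL_nonneg _ _ fun z => mul_nonneg (pw_nonneg M z _ _ _) (ind_nonneg _)) hf.le

theorem sum_hv (x y : V) (hf : 0 < M.fk 0 a x y) : ∑ w, hv M x y w ≤ 2 * (a : ℝ) := by
  simp only [hv]
  rw [← Finset.sum_div, div_le_iff₀ hf, ← sumL_sum, LM.fk, ← sumL_mul]
  refine sumL_mono _ _ _ fun z hz => ?_
  rw [← Finset.mul_sum]
  have := sum_vz M z
  rw [hz] at this
  nlinarith [pw_nonneg M z 0 x y]

/-- the weight of the touched vertices -/
theorem touched {T : ℕ} (ω : Fin T → Fld a V Val) (t : Fin T) (h : V → ℝ) (hh : ∀ w, 0 ≤ h w) :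
    ∑ w, ind (∃ t' < t, M.tch (ω t') w) * h w ≤
      ∑ t' ∈ Finset.univ.filter (· < t), M.tw h (ω t') := by
  have key : ∀ w, ind (∃ t' < t, M.tch (ω t') w) * h w ≤
      ∑ t' ∈ Finset.univ.filter (· < t), ∑ j : Fin a, ∑ u, ∑ e,
        ind (ω t' j u = some e) * (ind (u = w) * h w + ind (M.ex u e = w) * h w) := by
    intro w
    have hnn : ∀ (t' : Fin T) (j : Fin a) (u : V) (e : Val),
        0 ≤ ind (ω t' j u = some e) * (ind (u = w) * h w + ind (M.ex u e = w) * h w) :=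
      fun t' j u e => mul_nonneg (ind_nonneg _) (add_nonneg (mul_nonneg (ind_nonneg _) (hh w))
        (mul_nonneg (ind_nonneg _) (hh w)))
    by_cases hD : ∃ t' < t, M.tch (ω t') w
    · rw [ind_of hD, one_mul]
      obtain ⟨t', ht', j, u, e, hv, hw⟩ := hD
      have hj : j < a := by
        by_contra hj
        rw [val, dif_neg hj] at hv
        exact absurd hv (by simp)
      rw [val, dif_pos hj] at hv
      have h1 : h w ≤ ind (ω t' ⟨j, hj⟩ u = some e) *
          (ind (u = w) * h w + ind (M.ex u e = w) * h w) := by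
        rw [ind_of hv, one_mul]
        rcases hw with hw | hw
        · rw [ind_of hw, one_mul]
          have := mul_nonneg (ind_nonneg (M.ex u e = w)) (hh w)
          linarith
        · rw [ind_of hw, one_mul]
          have := mul_nonneg (ind_nonneg (u = w)) (hh w)
          linarith
      refine h1.trans ?_
      refine le_trans (Finset.single_le_sum (f := fun e => ind (ω t' ⟨j, hj⟩ u = some e) *
          (ind (u = w) * h w + ind (M.ex u e = w) * h w)) (fun e _ => hnn t' ⟨j, hj⟩ u e)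
          (Finset.mem_univ e)) ?_
      refine le_trans (Finset.single_le_sum (f := fun u => ∑ e, ind (ω t' ⟨j, hj⟩ u = some e) *
          (ind (u = w) * h w + ind (M.ex u e = w) * h w))
          (fun u _ => Finset.sum_nonneg fun e _ => hnn t' ⟨j, hj⟩ u e) (Finset.mem_univ u)) ?_
      refine le_trans (Finset.single_le_sum (f := fun j : Fin a => ∑ u, ∑ e,
          ind (ω t' j u = some e) * (ind (u = w) * h w + ind (M.ex u e = w) * h w))
          (fun j _ => Finset.sum_nonneg fun u _ => Finset.sum_nonneg fun e _ => hnn t' j u e)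
          (Finset.mem_univ (⟨j, hj⟩ : Fin a))) ?_
      exact Finset.single_le_sum (f := fun t' => ∑ j : Fin a, ∑ u, ∑ e,
          ind (ω t' j u = some e) * (ind (u = w) * h w + ind (M.ex u e = w) * h w))
          (fun t' _ => Finset.sum_nonneg fun j _ => Finset.sum_nonneg fun u _ =>
            Finset.sum_nonneg fun e _ => hnn t' j u e)
          (Finset.mem_filter.2 ⟨Finset.mem_univ t', ht'⟩)
    · rw [ind_not hD, zero_mul]
      exact Finset.sum_nonneg fun t' _ => Finset.sum_nonneg fun j _ => Finset.sum_nonneg fun u _ =>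
            Finset.sum_nonneg fun e _ => hnn t' j u e
  refine (Finset.sum_le_sum fun w _ => key w).trans (le_of_eq ?_)
  rw [Finset.sum_comm]
  refine Finset.sum_congr rfl fun t' _ => ?_
  rw [LM.tw, Finset.sum_comm]
  refine Finset.sum_congr rfl fun j _ => ?_
  rw [Finset.sum_comm]
  refine Finset.sum_congr rfl fun u _ => ?_
  rw [Finset.sum_comm]
  refine Finset.sum_congr rfl fun e _ => ?_
  rw [← Finset.mul_sum, Finset.sum_add_distrib, sum_ind_mul, sum_ind_mul]

/-- the walks with distinct vertices which are not forbidden -/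
def AA (W D : V → Prop) (x y : V) (z : List (V × Val)) : Prop :=
  M.vdis z ∧ ∀ w, vz M z w → ¬ W w ∧ w ≠ x ∧ w ≠ y ∧ ¬ D w

theorem mass_AA {X q : ℝ} {W : V → Prop} {x y : V} (hP : M.PH X q W x y)
    (hf : 0 < M.fk 0 a x y) (D : V → Prop) (hD : ∑ w, ind (D w) * hv M x y w ≤ 1 / 40) :
    (37 / 40 : ℝ) * M.fk 0 a x y ≤
      sumL a (fun z => M.pw 0 x z y * ind (AA M W D x y z)) := by
  set f := M.fk 0 a x y with hfdef
  have h1 : f ≤ sumL a (fun z => M.pw 0 x z y * ind (AA M W D x y z)) +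
      sumL a (fun z => M.pw 0 x z y * ind (∃ (i j : ℕ) (s s' : V × Val) (w : V), i ≤ j ∧
        z[i]? = some s ∧ z[j]? = some s' ∧ (s.1 = w ∨ M.ex s.1 s.2 = w) ∧
        ((i < j ∧ (s'.1 = w ∨ M.ex s'.1 s'.2 = w)) ∨ w = x ∨ w = y))) +
      sumL a (fun z => M.pw 0 x z y * ind (∃ (i : ℕ) (s : V × Val) (w : V), z[i]? = some s ∧
        (s.1 = w ∨ M.ex s.1 s.2 = w) ∧ W w)) +
      sumL a (fun z => ∑ w, ind (D w) * (M.pw 0 x z y * ind (vz M z w))) := by
    rw [← sumL_add, ← sumL_add, ← sumL_add, hfdef, LM.fk]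
    refine sumL_mono _ _ _ fun z _ => ?_
    have e : ∑ w, ind (D w) * (M.pw 0 x z y * ind (vz M z w)) =
        M.pw 0 x z y * ∑ w, ind (D w) * ind (vz M z w) := by
      rw [Finset.mul_sum]
      exact Finset.sum_congr rfl fun w _ => by ring
    rw [e, ← mul_add, ← mul_add, ← mul_add]
    have hpw := pw_nonneg M z 0 x y
    refine le_mul_of_one_le_right hpw ?_
    have hDs : 0 ≤ ∑ w, ind (D w) * ind (vz M z w) :=
      Finset.sum_nonneg fun w _ => mul_nonneg (ind_nonneg _) (ind_nonneg _)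
    by_cases c1 : AA M W D x y z
    · rw [ind_of c1]
      linarith [ind_nonneg (∃ (i j : ℕ) (s s' : V × Val) (w : V), i ≤ j ∧
        z[i]? = some s ∧ z[j]? = some s' ∧ (s.1 = w ∨ M.ex s.1 s.2 = w) ∧
        ((i < j ∧ (s'.1 = w ∨ M.ex s'.1 s'.2 = w)) ∨ w = x ∨ w = y)),
        ind_nonneg (∃ (i : ℕ) (s : V × Val) (w : V), z[i]? = some s ∧
        (s.1 = w ∨ M.ex s.1 s.2 = w) ∧ W w)]
    by_cases c2 : ∃ (i j : ℕ) (s s' : V × Val) (w : V), i ≤ j ∧
        z[i]? = some s ∧ z[j]? = some s' ∧ (s.1 = w ∨ M.ex s.1 s.2 = w) ∧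
        ((i < j ∧ (s'.1 = w ∨ M.ex s'.1 s'.2 = w)) ∨ w = x ∨ w = y)
    · rw [ind_of c2]
      linarith [ind_nonneg (AA M W D x y z),
        ind_nonneg (∃ (i : ℕ) (s : V × Val) (w : V), z[i]? = some s ∧
        (s.1 = w ∨ M.ex s.1 s.2 = w) ∧ W w)]
    by_cases c3 : ∃ (i : ℕ) (s : V × Val) (w : V), z[i]? = some s ∧
        (s.1 = w ∨ M.ex s.1 s.2 = w) ∧ W w
    · rw [ind_of c3]
      linarith [ind_nonneg (AA M W D x y z), ind_nonneg (∃ (i j : ℕ) (s s' : V × Val) (w : V),
        i ≤ j ∧ z[i]? = some s ∧ z[j]? = some s' ∧ (s.1 = w ∨ M.ex s.1 s.2 = w) ∧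
        ((i < j ∧ (s'.1 = w ∨ M.ex s'.1 s'.2 = w)) ∨ w = x ∨ w = y))]
    have c4 : ∃ w, vz M z w ∧ D w := by
      by_contra c4
      apply c1
      refine ⟨?_, ?_⟩
      · intro i j s s' hij hi hj w hw hw'
        exact c2 ⟨i, j, s, s', w, hij.le, hi, hj, hw, Or.inl ⟨hij, hw'⟩⟩
      · intro w hw
        have hw2 := hw
        obtain ⟨i, s, hi, hs⟩ := hw
        refine ⟨fun h => c3 ⟨i, s, w, hi, hs, h⟩, fun h => c2 ⟨i, i, s, s, w, le_rfl, hi, hi, hs,
          Or.inr (Or.inl h)⟩, fun h => c2 ⟨i, i, s, s, w, le_rfl, hi, hi, hs,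
          Or.inr (Or.inr h)⟩, fun h => c4 ⟨w, hw2, h⟩⟩
    obtain ⟨w, hw1, hw2⟩ := c4
    have h2 : (1 : ℝ) ≤ ∑ w, ind (D w) * ind (vz M z w) := by
      have := Finset.single_le_sum (f := fun w => ind (D w) * ind (vz M z w))
        (fun w _ => mul_nonneg (ind_nonneg _) (ind_nonneg _)) (Finset.mem_univ w)
      simp only [ind_of hw1, ind_of hw2, mul_one] at this
      exact this
    linarith [ind_nonneg (AA M W D x y z), ind_nonneg (∃ (i j : ℕ) (s s' : V × Val) (w : V),
        i ≤ j ∧ z[i]? = some s ∧ z[j]? = some s' ∧ (s.1 = w ∨ M.ex s.1 s.2 = w) ∧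
        ((i < j ∧ (s'.1 = w ∨ M.ex s'.1 s'.2 = w)) ∨ w = x ∨ w = y)),
        ind_nonneg (∃ (i : ℕ) (s : V × Val) (w : V), z[i]? = some s ∧
        (s.1 = w ∨ M.ex s.1 s.2 = w) ∧ W w)]
  have h2 : sumL a (fun z => ∑ w, ind (D w) * (M.pw 0 x z y * ind (vz M z w))) ≤ f / 40 := by
    rw [sumL_sum]
    simp only [sumL_mul]
    have e : ∀ w, sumL a (fun z => M.pw 0 x z y * ind (vz M z w)) = hv M x y w * f := by
      intro w
      rw [hv, div_mul_cancel₀ _ hf.ne']
    simp only [e, ← mul_assoc]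
    rw [← Finset.sum_mul]
    nlinarith
  have h3 := hP.dis
  have h4 := hP.wz
  linarith

/-- a walk of `AA` is good, or in conflict with the field, or truncated -/
theorem split {T : ℕ} (ω : Fin T → Fld a V Val) (t : Fin T) (W : V → Prop) (Λ : ℝ) (x y : V) :
    sumL a (fun z => M.pw 0 x z y * M.xw (ω t) 0 z *
        ind (AA M W (fun w => ∃ t' < t, M.tch (ω t') w) x y z)) ≤
      M.Zg ω W Λ t x y +
      (sumL a (fun z => M.pw 0 x z y * M.xw (ω t) 0 z * ind (M.vdis z ∧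
      ∃ (i j : ℕ) (s : V × Val) (w u : V) (e : Val), z[i]? = some s ∧
        (s.1 = w ∨ M.ex s.1 s.2 = w) ∧ val (ω t) j u = some e ∧ (u = w ∨ M.ex u e = w) ∧
        ¬ (j = i ∧ (u, e) = s))) +
      sumL a (fun z => M.pw 0 x z y * M.xw (ω t) 0 z *
        ind (∃ s, z[M.jc]? = some s ∧ Λ < M.ZX (ω t) x s.1)) +
      sumL a (fun z => M.pw 0 x z y * M.xw (ω t) 0 z *
        ind (∃ s, z[M.jc]? = some s ∧ Λ < M.ZY (ω t) (M.ex s.1 s.2) y))) := by
  rw [LM.Zg, ← sumL_add, ← sumL_add, ← sumL_add]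
  refine sumL_mono _ _ _ fun z _ => ?_
  rw [← mul_add, ← mul_add, ← mul_add]
  refine mul_le_mul_of_nonneg_left ?_ (mul_nonneg (pw_nonneg M z 0 x y) (xw_nonneg M (ω t) z 0))
  by_cases c0 : AA M W (fun w => ∃ t' < t, M.tch (ω t') w) x y z
  swap
  · rw [ind_not c0]
    exact add_nonneg (ind_nonneg _) (add_nonneg (add_nonneg (ind_nonneg _) (ind_nonneg _))
      (ind_nonneg _))
  rw [ind_of c0]
  by_cases c1 : (M.vdis z ∧ ∃ (i j : ℕ) (s : V × Val) (w u : V) (e : Val), z[i]? = some s ∧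
        (s.1 = w ∨ M.ex s.1 s.2 = w) ∧ val (ω t) j u = some e ∧ (u = w ∨ M.ex u e = w) ∧
        ¬ (j = i ∧ (u, e) = s))
  · rw [ind_of c1]
    linarith [ind_nonneg (M.good ω W Λ t x y z),
      ind_nonneg (∃ s, z[M.jc]? = some s ∧ Λ < M.ZX (ω t) x s.1),
      ind_nonneg (∃ s, z[M.jc]? = some s ∧ Λ < M.ZY (ω t) (M.ex s.1 s.2) y)]
  by_cases c2 : ∃ s, z[M.jc]? = some s ∧ Λ < M.ZX (ω t) x s.1
  · rw [ind_of c2, ind_not c1]
    linarith [ind_nonneg (M.good ω W Λ t x y z),
      ind_nonneg (∃ s, z[M.jc]? = some s ∧ Λ < M.ZY (ω t) (M.ex s.1 s.2) y)]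
  by_cases c3 : ∃ s, z[M.jc]? = some s ∧ Λ < M.ZY (ω t) (M.ex s.1 s.2) y
  · rw [ind_of c3, ind_not c1, ind_not c2]
    linarith [ind_nonneg (M.good ω W Λ t x y z)]
  have c4 : M.good ω W Λ t x y z := by
    refine ⟨?_, ?_⟩
    · intro i s hi w hw
      obtain ⟨k1, k2, k3, k4⟩ := c0.2 w ⟨i, s, hi, hw⟩
      refine ⟨k1, k2, k3, fun t' ht' h => k4 ⟨t', ht', h⟩, ?_⟩
      intro j u e hv hu
      by_contra hne
      exact c1 ⟨c0.1, i, j, s, w, u, e, hi, hw, hv, hu, hne⟩
    · intro s hs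
      exact ⟨not_lt.1 fun h => c2 ⟨s, hs, h⟩, not_lt.1 fun h => c3 ⟨s, hs, h⟩⟩
  rw [ind_of c4, ind_not c1, ind_not c2, ind_not c3]
  norm_num

/-- locality of `Zg` -/
theorem Zg_congr {T : ℕ} (ω ω' : Fin T → Fld a V Val) (t : Fin T) (h : ∀ s, s ≤ t → ω s = ω' s)
    (W : V → Prop) (Λ : ℝ) (x y : V) : M.Zg ω W Λ t x y = M.Zg ω' W Λ t x y := by
  rw [LM.Zg, LM.Zg]
  refine sumL_congr _ _ _ fun z => ?_
  rw [h t le_rfl]
  have e : M.good ω W Λ t x y z = M.good ω' W Λ t x y z := by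
    unfold LM.good LM.clean
    rw [h t le_rfl]
    have e2 : ∀ w, (∀ t' < t, ¬ M.tch (ω t') w) = (∀ t' < t, ¬ M.tch (ω' t') w) := by
      intro w
      refine propext ⟨fun k t' ht' => ?_, fun k t' ht' => ?_⟩
      · rw [← h t' ht'.le]; exact k t' ht'
      · rw [h t' ht'.le]; exact k t' ht'
    simp only [e2]
  rw [e]

end model

/-- Module LOW. -/
theorem low (hPI : PIPR_S.{0, max u v}) (hEX : EXX_S.{u, v}) (hSEQ : SEQ_S.{max u v})
    (hA : LOWA_S.{u, v}) (hB : LOWB_S.{u, v}) (hC : LOWC_S.{u, v}) (hD : LOWD_S.{u, v}) :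
    LOW_S.{u, v} := by
  intro V Val _ _ _ a M X q L0 r0 T W x y hN hS hP
  classical
  -- numbers
  have hX : (10 : ℝ) ^ 6 ≤ X := hN.X1
  have hX0 : (0 : ℝ) < X := lt_of_lt_of_le (by norm_num) hX
  have hX1 : (1 : ℝ) ≤ X := le_trans (by norm_num) hX
  set n : ℝ := (Fintype.card V : ℝ) with hn
  have hn1 : 1 ≤ n := hN.n1
  have hn0 : 0 < n := lt_of_lt_of_le one_pos hn1
  have hq : 0 < q := lt_of_lt_of_le (one_div_pos.2 hn0) hN.q0
  set f := M.fk 0 a x y with hfdef
  have hf9 : (9 / 10 : ℝ) * q ≤ f := hP.f0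
  have hf : 0 < f := lt_of_lt_of_le (by positivity) hf9
  have hb0 : 0 < M.b := lt_of_lt_of_le one_pos M.hb
  have hbX : X ^ 200000 ≤ M.b := hN.bX
  have hTr : (1 : ℝ) ≤ T := by exact_mod_cast hN.T1
  have hlaw : IsPr M.law := (hEX V Val a M).1
  have hlaws : IsPr (piW (fun _ : Fin T => M.law)) :=
    hPI.1 (Fin T) (fun _ => Fld a V Val) (fun _ => M.law) (fun _ => hlaw)
  have hpt0 : 0 ≤ M.pt := by
    refine le_trans ?_ (M.hpt x)
    exact Finset.sum_nonneg fun u _ => Finset.sum_nonneg fun e _ =>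
      mul_nonneg (M.hP0 _ _) (ind_nonneg _)
  set h : V → ℝ := hv M x y with hh
  have hh0 : ∀ w, 0 ≤ h w := fun w => hv_nonneg M x y w hf
  have hX4 : X ^ 4 ≤ M.b ^ (1 / 8 : ℝ) := by
    have e1 : (X ^ 4) ^ 8 ≤ M.b := by
      rw [← pow_mul]
      exact (pow_le_pow_right₀ hX1 (by norm_num)).trans hbX
    have e2 : ((X ^ 4) ^ 8) ^ (1 / 8 : ℝ) = X ^ 4 := by
      have := Real.pow_rpow_inv_natCast (x := X ^ 4) (by positivity) (n := 8) (by norm_num)
      rw [show (1 / 8 : ℝ) = (((8 : ℕ) : ℝ))⁻¹ by norm_num]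
      exact this
    rw [← e2]
    exact Real.rpow_le_rpow (by positivity) e1 (by norm_num)
  have hb8 : 0 < M.b ^ (1 / 8 : ℝ) := lt_of_lt_of_le (by positivity) hX4
  -- the bad event of colour `t`
  let E : Fin T → (Fin T → Fld a V Val) → Prop := fun t ω =>
    ∑ t' ∈ Finset.univ.filter (· < t), M.tw h (ω t') < 1 / 40 ∧
      M.Zg ω W (X ^ 5 * q) t x y < f / 4
  -- one colour
  have hstep : ∀ t ω, Pr M.law (fun η => E t (Function.update ω t η)) ≤ 1 / X ^ 3 := by
    intro t ω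
    have hsame : ∀ η : Fld a V Val, ∑ t' ∈ Finset.univ.filter (· < t),
        M.tw h (Function.update ω t η t') = ∑ t' ∈ Finset.univ.filter (· < t), M.tw h (ω t') := by
      intro η
      refine Finset.sum_congr rfl fun t' ht' => ?_
      rw [Function.update_of_ne]
      exact (Finset.mem_filter.1 ht').2.ne
    by_cases hfair : ∑ t' ∈ Finset.univ.filter (· < t), M.tw h (ω t') < 1 / 40
    swap
    · rw [pr_false]
      · positivity
      · intro η ha
        have := ha.1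
        rw [hsame] at this
        exact hfair this
    set D : V → Prop := fun w => ∃ t' < t, M.tch (ω t') w with hDdef
    have hDm : ∑ w, ind (D w) * hv M x y w ≤ 1 / 40 :=
      (touched M ω t h hh0).trans hfair.le
    have hcA := mass_AA M hP hf D hDm
    -- the three error terms
    let U : Fld a V Val → ℝ := fun η => sumL a (fun z => M.pw 0 x z y * M.xw η 0 z * ind (M.vdis z ∧
      ∃ (i j : ℕ) (s : V × Val) (w u : V) (e : Val), z[i]? = some s ∧
        (s.1 = w ∨ M.ex s.1 s.2 = w) ∧ val η j u = some e ∧ (u = w ∨ M.ex u e = w) ∧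
        ¬ (j = i ∧ (u, e) = s)))
    let TX : Fld a V Val → ℝ := fun η => sumL a (fun z => M.pw 0 x z y * M.xw η 0 z *
        ind (∃ s, z[M.jc]? = some s ∧ X ^ 5 * q < M.ZX η x s.1))
    let TY : Fld a V Val → ℝ := fun η => sumL a (fun z => M.pw 0 x z y * M.xw η 0 z *
        ind (∃ s, z[M.jc]? = some s ∧ X ^ 5 * q < M.ZY η (M.ex s.1 s.2) y))
    have hnn : ∀ (η : Fld a V Val) (Q : List (V × Val) → Prop),
        0 ≤ sumL a (fun z => M.pw 0 x z y * M.xw η 0 z * ind (Q z)) := fun η Q =>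
      sumL_nonneg _ _ fun z => mul_nonneg (mul_nonneg (pw_nonneg M z 0 x y) (xw_nonneg M η z 0))
        (ind_nonneg _)
    have hEU : Ex M.law (fun η => U η + TX η + TY η) ≤
        (2 * (a : ℝ) ^ 2 * M.pt + 4 / X ^ 4) * f := by
      rw [ex_add, ex_add]
      have h1 := hB V Val a M x y hP.pos
      have h2 := hC V Val a M X q L0 r0 T x y hN hS hP.pos
      have h3 : Ex M.law U ≤ 2 * (a : ℝ) ^ 2 * M.pt * f := h1
      have h4 : Ex M.law TX ≤ 2 / X ^ 4 * f := h2.1
      have h5 : Ex M.law TY ≤ 2 / X ^ 4 * f := h2.2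
      have e : (2 * (a : ℝ) ^ 2 * M.pt + 4 / X ^ 4) * f =
          2 * (a : ℝ) ^ 2 * M.pt * f + 2 / X ^ 4 * f + 2 / X ^ 4 * f := by ring
      rw [e]
      exact add_le_add (add_le_add h3 h4) h5
    have hA' := hA V Val a M X q L0 r0 T x y (AA M W D x y) ((2 / 5 : ℝ) * f) hN hS hP.pos
      (by positivity)
    have hsub : ∀ η : Fld a V Val, E t (Function.update ω t η) →
        (sumL a (fun z => M.pw 0 x z y * M.xw η 0 z * ind (AA M W D x y z)) ≤
          sumL a (fun z => M.pw 0 x z y * ind (AA M W D x y z)) - (2 / 5 : ℝ) * f) ∨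
        f / 4 ≤ U η + TX η + TY η := by
      intro η ha
      by_contra hcon
      rw [not_or, not_le, not_le] at hcon
      obtain ⟨g1, g2⟩ := hcon
      have g3 := split M (Function.update ω t η) t W (X ^ 5 * q) x y
      rw [Function.update_self] at g3
      have g4 : (fun w => ∃ t' < t, M.tch (Function.update ω t η t') w) = D := by
        funext w
        refine propext ⟨?_, ?_⟩
        · rintro ⟨t', ht', hw⟩
          rw [Function.update_of_ne ht'.ne] at hw
          exact ⟨t', ht', hw⟩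
        · rintro ⟨t', ht', hw⟩
          refine ⟨t', ht', ?_⟩
          rw [Function.update_of_ne ht'.ne]
          exact hw
      rw [g4] at g3
      have g5 : sumL a (fun z => M.pw 0 x z y * M.xw η 0 z * ind (AA M W D x y z)) ≤
          M.Zg (Function.update ω t η) W (X ^ 5 * q) t x y + (U η + TX η + TY η) := g3
      have g6 := ha.2
      linarith
    have hmk := pr_markov hlaw.nn (fun η => U η + TX η + TY η)
      (fun η => add_nonneg (add_nonneg (hnn η _) (hnn η _)) (hnn η _)) (c := f / 4)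
      (by positivity)
    have htot : Pr M.law (fun η => E t (Function.update ω t η)) ≤
        f * (q / M.b ^ (1 / 8 : ℝ)) / ((2 / 5 : ℝ) * f) ^ 2 +
          (2 * (a : ℝ) ^ 2 * M.pt + 4 / X ^ 4) * f / (f / 4) := by
      refine (pr_mono hlaw.nn hsub).trans ((pr_or hlaw.nn _ _).trans (add_le_add hA' ?_))
      refine hmk.trans ?_
      exact div_le_div_of_nonneg_right hEU (by positivity)
    refine htot.trans ?_
    have k1 : f * (q / M.b ^ (1 / 8 : ℝ)) / ((2 / 5 : ℝ) * f) ^ 2 ≤ 7 / X ^ 4 := by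
      have e : f * (q / M.b ^ (1 / 8 : ℝ)) / ((2 / 5 : ℝ) * f) ^ 2 =
          (25 / 4) * (q / f) / M.b ^ (1 / 8 : ℝ) := by
        field_simp
        ring
      rw [e]
      have e2 : q / f ≤ 10 / 9 := by
        rw [div_le_div_iff₀ hf (by norm_num)]
        linarith
      have e3 : 0 ≤ q / f := by positivity
      exact div_le_div₀ (by norm_num) (by linarith) (by positivity) hX4
    have k2 : (2 * (a : ℝ) ^ 2 * M.pt + 4 / X ^ 4) * f / (f / 4) ≤ 17 / X ^ 4 := by
      have e : (2 * (a : ℝ) ^ 2 * M.pt + 4 / X ^ 4) * f / (f / 4) =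
          8 * (a : ℝ) ^ 2 * M.pt + 16 / X ^ 4 := by
        field_simp
        ring
      rw [e]
      have e2 := hN.ptX
      have e3 : 8 * (a : ℝ) ^ 2 * M.pt ≤ 8 * (a : ℝ) ^ 2 * T * M.pt := by
        have : 0 ≤ 8 * (a : ℝ) ^ 2 * M.pt := by positivity
        nlinarith
      have e4 : 17 / X ^ 4 = 1 / X ^ 4 + 16 / X ^ 4 := by ring
      rw [e4]
      linarith
    have k3 : 7 / X ^ 4 + 17 / X ^ 4 ≤ 1 / X ^ 3 := by
      rw [← add_div, div_le_div_iff₀ (by positivity) (by positivity)]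
      have : X ^ 4 = X ^ 3 * X := by ring
      rw [this]
      have : 0 < X ^ 3 := by positivity
      nlinarith
    linarith
  have hseq := hSEQ T (Fld a V Val) M.law hlaw E (1 / X ^ 3) (by positivity) (by
    intro t ω ω' hω
    show (_ ∧ _) ↔ (_ ∧ _)
    rw [Zg_congr M ω ω' t hω]
    have e : ∑ t' ∈ Finset.univ.filter (· < t), M.tw h (ω t') =
        ∑ t' ∈ Finset.univ.filter (· < t), M.tw h (ω' t') := by
      refine Finset.sum_congr rfl fun t' ht' => ?_
      rw [hω t' (Finset.mem_filter.1 ht').2.le]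
    rw [e]) hstep
  -- the touched vertices
  have hh1 : 0 < X ^ 2 / M.b := by positivity
  have hlow := hD V Val a M T h (2 * (a : ℝ)) (X ^ 2 / M.b) (1 / 80) hh0 (by
      intro w
      have := hP.hh w
      rw [hh, hv, div_le_iff₀ hf]
      exact this) hh1 (by norm_num) (sum_hv M x y hf) (by
      have e2 := hN.ptX
      have e3 : 1 / X ^ 4 ≤ 1 / 80 := by
        refine one_div_le_one_div_of_le (by norm_num) ?_
        have : X ^ 1 ≤ X ^ 4 := pow_le_pow_right₀ hX1 (by norm_num)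
        rw [pow_one] at this
        linarith
      have e4 : 2 * (T : ℝ) * a * M.pt * (2 * (a : ℝ)) = (8 * (a : ℝ) ^ 2 * T * M.pt) / 2 := by
        ring
      rw [e4]
      have : 0 ≤ 8 * (a : ℝ) ^ 2 * T * M.pt := by positivity
      linarith)
  have hexp : Real.exp (-((1 / 80 : ℝ) / (8 * (X ^ 2 / M.b)))) ≤ 1 / n ^ 40 := by
    have h1 := hN.en ((1 / 80 : ℝ) / (8 * (X ^ 2 / M.b))) (by
      rw [le_div_iff₀ (by positivity)]
      have e1 : X ^ 4 ≤ M.b := (pow_le_pow_right₀ hX1 (by norm_num)).trans hbX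
      have e2 : X * (8 * (X ^ 2 / M.b)) = 8 * X ^ 3 / M.b := by ring
      rw [e2, div_le_iff₀ hb0]
      have e3 : X ^ 4 = X ^ 3 * X := by ring
      have e4 : 0 < X ^ 3 := by positivity
      nlinarith)
    rw [le_div_iff₀ (by positivity)]
    exact h1
  have hall : Pr (piW (fun _ : Fin T => M.law))
      (fun ω => ∀ t, M.Zg ω W (X ^ 5 * q) t x y < f / 4) ≤
      1 / n ^ 40 + (1 / X ^ 3) ^ T := by
    refine (pr_mono hlaws.nn (F := fun ω => (2 * (1 / 80 : ℝ) ≤ ∑ t, M.tw h (ω t)) ∨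
      ∀ t, E t ω) ?_).trans ((pr_or hlaws.nn _ _).trans (add_le_add (hlow.trans hexp) hseq))
    intro ω hω
    by_cases c : 2 * (1 / 80 : ℝ) ≤ ∑ t, M.tw h (ω t)
    · exact Or.inl c
    · right
      intro t
      refine ⟨?_, hω t⟩
      refine lt_of_le_of_lt ?_ (lt_of_lt_of_eq (not_le.1 c) (by norm_num))
      refine Finset.sum_le_sum_of_subset_of_nonneg (Finset.filter_subset _ _) ?_
      intro t' _ _
      exact Finset.sum_nonneg fun j _ => Finset.sum_nonneg fun u _ => Finset.sum_nonneg fun e _ =>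
        mul_nonneg (ind_nonneg _) (add_nonneg (hh0 _) (hh0 _))
  refine hall.trans ?_
  have p1 : (1 / X ^ 3) ^ T ≤ 1 / n ^ 20 := by
    rw [one_div_pow, ← pow_mul]
    exact one_div_le_one_div_of_le (by positivity) hN.nT
  have p2 : 1 / n ^ 40 ≤ 1 / n ^ 20 :=
    one_div_le_one_div_of_le (by positivity) (pow_le_pow_right₀ hn1 (by norm_num))
  have p3 : 1 / n ^ 20 + 1 / n ^ 20 ≤ 1 / n ^ 14 := by
    rw [← add_div, div_le_div_iff₀ (by positivity) (by positivity)]
    have hnX : X ≤ n := by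
      refine le_trans ?_ hN.bn
      refine le_trans ?_ hbX
      conv_lhs => rw [← pow_one X]
      exact pow_le_pow_right₀ hX1 (by norm_num)
    have e1 : n ^ 20 = n ^ 14 * n ^ 6 := by ring
    have e2 : n ^ 1 ≤ n ^ 6 := pow_le_pow_right₀ hn1 (by norm_num)
    rw [pow_one] at e2
    have e3 : 0 < n ^ 14 := by positivity
    rw [e1]
    nlinarith
  linarith

end Pool.Agent.Lib.MP_688fd0_co.TE.H35
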