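import Pool.Agent.Lib.MP_688fd0_co.TE.Iface5

/-!
# Theorem E, module PPD: the Poincare inequality (5.1)
-/

namespace Pool.Agent.Lib.MP_688fd0_co.TE.H35.PpdAux

open Pool.Agent.Lib.MP_688fd0_co.TE

universe u v w

set_option linter.unusedSectionVars false

/-! ### Lists -/

section lists

variable {S : Type u} [Fintype S]

theorem sumL_mono (n : ℕ) {F H : List S → ℝ} (h : ∀ l, l.length = n → F l ≤ H l) :
    sumL n F ≤ sumL n H := by
  induction n generalizing F H with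
  | zero => exact h [] rfl
  | succ n ih =>
    exact Finset.sum_le_sum fun s _ => ih fun l hl => h (s :: l) (by simp [hl])

theorem sumL_congr (n : ℕ) {F H : List S → ℝ} (h : ∀ l, l.length = n → F l = H l) :
    sumL n F = sumL n H :=
  le_antisymm (sumL_mono n fun l hl => (h l hl).le) (sumL_mono n fun l hl => (h l hl).ge)

theorem sumL_mul (n : ℕ) (c : ℝ) (F : List S → ℝ) :
    sumL n (fun l => F l * c) = sumL n F * c := by
  induction n generalizing F with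
  | zero => rfl
  | succ n ih =>
    show ∑ s, sumL n (fun l => F (s :: l) * c) = (∑ s, sumL n (fun l => F (s :: l))) * c
    rw [Finset.sum_mul]
    exact Finset.sum_congr rfl fun s _ => ih fun l => F (s :: l)

theorem sumL_add (n : ℕ) (F H : List S → ℝ) :
    sumL n (fun l => F l + H l) = sumL n F + sumL n H := by
  induction n generalizing F H with
  | zero => rfl
  | succ n ih =>
    show ∑ s, sumL n (fun l => F (s :: l) + H (s :: l)) =
      ∑ s, sumL n (fun l => F (s :: l)) + ∑ s, sumL n (fun l => H (s :: l))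
    rw [← Finset.sum_add_distrib]
    exact Finset.sum_congr rfl fun s _ => ih _ _

theorem sumL_sum {κ : Type v} (K : Finset κ) (n : ℕ) (F : κ → List S → ℝ) :
    sumL n (fun l => ∑ i ∈ K, F i l) = ∑ i ∈ K, sumL n (F i) := by
  induction n generalizing F with
  | zero => rfl
  | succ n ih =>
    change ∑ s, sumL n (fun l => ∑ i ∈ K, F i (s :: l)) = ∑ i ∈ K, ∑ s, sumL n _
    rw [Finset.sum_comm]
    exact Finset.sum_congr rfl fun s _ => ih _

theorem sum_get (z : List S) (j : ℕ) (hj : j < z.length) (g : S → ℝ) :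
    ∑ s, ind (z[j]? = some s) * g s = g z[j] := by
  rw [Finset.sum_eq_single z[j]]
  · rw [ind_of (List.getElem?_eq_getElem hj), one_mul]
  · intro s _ hs
    rw [ind_not, zero_mul]
    rw [List.getElem?_eq_getElem hj]
    intro h
    exact hs (Option.some.inj h).symm
  · intro h
    exact absurd (Finset.mem_univ _) h

theorem sum_get2 (z : List S) (j : ℕ) (hj : j + 1 < z.length) (g : S → S → ℝ) :
    ∑ s, ∑ s', ind (z[j]? = some s ∧ z[j + 1]? = some s') * g s s' =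
      g (z[j]'(by omega)) z[j + 1] := by
  have h : ∀ s s', ind (z[j]? = some s ∧ z[j + 1]? = some s') * g s s' =
      ind (z[j]? = some s) * (ind (z[j + 1]? = some s') * g s s') := by
    intro s s'
    rw [ind_and, mul_assoc]
  simp_rw [h, ← Finset.mul_sum]
  rw [sum_get z j (by omega) (fun s => ∑ s', ind (z[j + 1]? = some s') * g s s')]
  exact sum_get z (j + 1) hj _

theorem abs_tele (h : ℕ → ℝ) (n : ℕ) :
    |h 0 - h n| ≤ ∑ j ∈ Finset.range n, |h j - h (j + 1)| := by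
  induction n with
  | zero => simp
  | succ n ih =>
    rw [Finset.sum_range_succ]
    have := abs_sub_le (h 0) (h n) (h (n + 1))
    linarith

theorem tele_list (a : ℕ) (ha : 0 < a) (z : List S) (hz : z.length = a) (φ : ℕ → S → ℝ)
    (F0 Fe : ℝ) :
    |F0 - Fe| ≤ ∑ s, ind (z[0]? = some s) * |F0 - φ 0 s| +
      ∑ j ∈ Finset.range (a - 1), ∑ s, ∑ s', ind (z[j]? = some s ∧ z[j + 1]? = some s') *
        |φ j s - φ (j + 1) s'| +
      ∑ s, ind (z[a - 1]? = some s) * |φ (a - 1) s - Fe| := by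
  rw [sum_get z 0 (by omega), sum_get z (a - 1) (by omega)]
  have h : ∀ j ∈ Finset.range (a - 1), ∑ s, ∑ s',
      ind (z[j]? = some s ∧ z[j + 1]? = some s') * |φ j s - φ (j + 1) s'| =
      |(fun j => if hj : j < z.length then φ j z[j] else 0) j -
        (fun j => if hj : j < z.length then φ j z[j] else 0) (j + 1)| := by
    intro j hj
    have hj' : j < a - 1 := Finset.mem_range.1 hj
    rw [sum_get2 z j (by omega) (fun s s' => |φ j s - φ (j + 1) s'|)]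
    have h1 : j < z.length := by omega
    have h2 : j + 1 < z.length := by omega
    simp only [h1, h2, dif_pos]
  rw [Finset.sum_congr rfl h]
  have h1 := abs_tele (fun j => if hj : j < z.length then φ j z[j] else 0) (a - 1)
  have h2 : 0 < z.length := by omega
  have h3 : a - 1 < z.length := by omega
  simp only [h2, h3, dif_pos] at h1
  have h4 := abs_sub_le F0 (φ 0 z[0]) (φ (a - 1) z[a - 1])
  have h5 := abs_sub_le F0 (φ (a - 1) z[a - 1]) Fe
  linarith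

theorem tele_sum (a : ℕ) (ha : 0 < a) (R : List S → ℝ) (hR0 : ∀ z, 0 ≤ R z)
    (hR1 : sumL a R = 1) (φ : ℕ → S → ℝ) (F0 Fe : ℝ) :
    |F0 - Fe| ≤ ∑ s, sumL a (fun z => R z * ind (z[0]? = some s)) * |F0 - φ 0 s| +
      ∑ j ∈ Finset.range (a - 1), ∑ s, ∑ s',
        sumL a (fun z => R z * ind (z[j]? = some s ∧ z[j + 1]? = some s')) *
        |φ j s - φ (j + 1) s'| +
      ∑ s, sumL a (fun z => R z * ind (z[a - 1]? = some s)) * |φ (a - 1) s - Fe| := by
  have h1 : |F0 - Fe| = sumL a (fun z => R z * |F0 - Fe|) := by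
    rw [sumL_mul, hR1, one_mul]
  rw [h1]
  refine (sumL_mono a fun z hz => mul_le_mul_of_nonneg_left
    (tele_list a ha z hz φ F0 Fe) (hR0 z)).trans (le_of_eq ?_)
  have h2 : ∀ z : List S, R z * (∑ s, ind (z[0]? = some s) * |F0 - φ 0 s| +
      ∑ j ∈ Finset.range (a - 1), ∑ s, ∑ s', ind (z[j]? = some s ∧ z[j + 1]? = some s') *
        |φ j s - φ (j + 1) s'| +
      ∑ s, ind (z[a - 1]? = some s) * |φ (a - 1) s - Fe|) =
      ((∑ s, R z * ind (z[0]? = some s) * |F0 - φ 0 s|) +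
      ∑ j ∈ Finset.range (a - 1), ∑ s, ∑ s',
        R z * ind (z[j]? = some s ∧ z[j + 1]? = some s') * |φ j s - φ (j + 1) s'|) +
      ∑ s, R z * ind (z[a - 1]? = some s) * |φ (a - 1) s - Fe| := by
    intro z
    simp only [mul_add, Finset.mul_sum, mul_assoc]
  rw [sumL_congr a fun z _ => h2 z, sumL_add, sumL_add, sumL_sum, sumL_sum, sumL_sum]
  simp only [sumL_sum, sumL_mul]

end lists

/-! ### The operators -/

section ops

variable {V : Type u} {Val : Type v} [Fintype V] [Fintype Val] [DecidableEq V] {a : ℕ}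
  (M : LM V Val a) (ω : Fld a V Val)

theorem lw_nonneg (j : ℕ) (x : V) (e : Val) : 0 ≤ M.lw ω j x e :=
  mul_nonneg (M.hk0 _ _ _) (div_nonneg (ind_nonneg _) (M.hP0 _ _))

theorem top_mono (j : ℕ) {F H : V → ℝ} (hFH : ∀ v, F v ≤ H v) (v : V) :
    M.Top ω j F v ≤ M.Top ω j H v := by
  unfold LM.Top
  refine Finset.sum_le_sum fun x _ => Finset.sum_le_sum fun e _ => ?_
  exact mul_le_mul_of_nonneg_right
    (mul_le_mul_of_nonneg_right (hFH x) (lw_nonneg M ω j x e)) (M.hC0 _ _ _)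

theorem gop_mono (j : ℕ) {F H : V → ℝ} (hFH : ∀ v, F v ≤ H v) (v : V) :
    M.Gop ω j F v ≤ M.Gop ω j H v := by
  unfold LM.Gop
  refine Finset.sum_le_sum fun x _ => Finset.sum_le_sum fun e _ => ?_
  exact mul_le_mul_of_nonneg_left (hFH _) (mul_nonneg (M.hC0 _ _ _) (lw_nonneg M ω j x e))

theorem top_nonneg (j : ℕ) {F : V → ℝ} (hF : ∀ v, 0 ≤ F v) (v : V) : 0 ≤ M.Top ω j F v := by
  unfold LM.Top
  refine Finset.sum_nonneg fun x _ => Finset.sum_nonneg fun e _ => ?_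
  exact mul_nonneg (mul_nonneg (hF x) (lw_nonneg M ω j x e)) (M.hC0 _ _ _)

theorem gop_nonneg (j : ℕ) {F : V → ℝ} (hF : ∀ v, 0 ≤ F v) (v : V) : 0 ≤ M.Gop ω j F v := by
  unfold LM.Gop
  refine Finset.sum_nonneg fun x _ => Finset.sum_nonneg fun e _ => ?_
  exact mul_nonneg (mul_nonneg (M.hC0 _ _ _) (lw_nonneg M ω j x e)) (hF _)

theorem top_lin {κ : Type w} (s : Finset κ) (α : κ → ℝ) (j : ℕ) (F : κ → V → ℝ) (v : V) :
    M.Top ω j (fun v => ∑ k ∈ s, α k * F k v) v = ∑ k ∈ s, α k * M.Top ω j (F k) v := by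
  unfold LM.Top
  simp only [Finset.sum_mul, Finset.mul_sum]
  rw [show (∑ k ∈ s, ∑ x, ∑ e, α k * (F k x * M.lw ω j x e * M.C (j + 1) (M.ex x e) v)) =
    ∑ x, ∑ e, ∑ k ∈ s, α k * (F k x * M.lw ω j x e * M.C (j + 1) (M.ex x e) v) from by
      rw [Finset.sum_comm]
      exact Finset.sum_congr rfl fun x _ => Finset.sum_comm]
  refine Finset.sum_congr rfl fun x _ => Finset.sum_congr rfl fun e _ =>
    Finset.sum_congr rfl fun k _ => ?_
  ring

theorem gop_lin {κ : Type w} (s : Finset κ) (α : κ → ℝ) (j : ℕ) (F : κ → V → ℝ) (v : V) :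
    M.Gop ω j (fun v => ∑ k ∈ s, α k * F k v) v = ∑ k ∈ s, α k * M.Gop ω j (F k) v := by
  unfold LM.Gop
  simp only [Finset.mul_sum]
  rw [show (∑ k ∈ s, ∑ x, ∑ e, α k * (M.C j v x * M.lw ω j x e * F k (M.ex x e))) =
    ∑ x, ∑ e, ∑ k ∈ s, α k * (M.C j v x * M.lw ω j x e * F k (M.ex x e)) from by
      rw [Finset.sum_comm]
      exact Finset.sum_congr rfl fun x _ => Finset.sum_comm]
  refine Finset.sum_congr rfl fun x _ => Finset.sum_congr rfl fun e _ =>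
    Finset.sum_congr rfl fun k _ => ?_
  ring

theorem fn_mono (i n : ℕ) {F H : V → ℝ} (hFH : ∀ v, F v ≤ H v) (v : V) :
    M.Fn ω i F n v ≤ M.Fn ω i H n v := by
  induction n generalizing v with
  | zero => exact hFH v
  | succ n ih => exact top_mono M ω _ ih v

theorem fn_nonneg (i n : ℕ) {F : V → ℝ} (hF : ∀ v, 0 ≤ F v) (v : V) : 0 ≤ M.Fn ω i F n v := by
  induction n generalizing v with
  | zero => exact hF v
  | succ n ih => exact top_nonneg M ω _ ih v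

theorem gn_mono (i n : ℕ) {F H : V → ℝ} (hFH : ∀ v, F v ≤ H v) (v : V) :
    M.Gn ω F n i v ≤ M.Gn ω H n i v := by
  induction n generalizing i v with
  | zero => exact hFH v
  | succ n ih => exact gop_mono M ω _ (ih (i + 1)) v

theorem gn_nonneg (i n : ℕ) {F : V → ℝ} (hF : ∀ v, 0 ≤ F v) (v : V) : 0 ≤ M.Gn ω F n i v := by
  induction n generalizing i v with
  | zero => exact hF v
  | succ n ih => exact gop_nonneg M ω _ (ih (i + 1)) v

theorem fn_lin {κ : Type w} (s : Finset κ) (α : κ → ℝ) (i n : ℕ) (F : κ → V → ℝ) (v : V) :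
    M.Fn ω i (fun v => ∑ k ∈ s, α k * F k v) n v = ∑ k ∈ s, α k * M.Fn ω i (F k) n v := by
  induction n generalizing v with
  | zero => rfl
  | succ n ih =>
    have h : M.Fn ω i (fun v => ∑ k ∈ s, α k * F k v) n =
      fun v => ∑ k ∈ s, α k * M.Fn ω i (F k) n v := funext ih
    simp only [LM.Fn]
    rw [h, top_lin]

theorem gn_lin {κ : Type w} (s : Finset κ) (α : κ → ℝ) (i n : ℕ) (F : κ → V → ℝ) (v : V) :
    M.Gn ω (fun v => ∑ k ∈ s, α k * F k v) n i v = ∑ k ∈ s, α k * M.Gn ω (F k) n i v := by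
  induction n generalizing i v with
  | zero => rfl
  | succ n ih =>
    have h : M.Gn ω (fun v => ∑ k ∈ s, α k * F k v) n (i + 1) =
      fun v => ∑ k ∈ s, α k * M.Gn ω (F k) n (i + 1) v := funext (ih (i + 1))
    simp only [LM.Gn]
    rw [h, gop_lin]

theorem fn_sum_le {κ : Type w} (s : Finset κ) (α : κ → ℝ) (i n : ℕ) (F : κ → V → ℝ) (β : ℝ)
    (h : ∀ v, ∑ k ∈ s, α k * F k v ≤ β) (v : V) :
    ∑ k ∈ s, α k * M.Fn ω i (F k) n v ≤ β * M.Fn ω i (fun _ => 1) n v := by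
  rw [← fn_lin]
  have h1 := fn_lin M ω (Finset.univ : Finset Unit) (fun _ => β) i n (fun _ _ => 1) v
  simp only [Finset.univ_unique, Finset.sum_singleton] at h1
  rw [← h1]
  exact fn_mono M ω i n (fun v => by simpa using h v) v

theorem gn_sum_le {κ : Type w} (s : Finset κ) (α : κ → ℝ) (i n : ℕ) (F : κ → V → ℝ) (β : ℝ)
    (h : ∀ v, ∑ k ∈ s, α k * F k v ≤ β) (v : V) :
    ∑ k ∈ s, α k * M.Gn ω (F k) n i v ≤ β * M.Gn ω (fun _ => 1) n i v := by
  rw [← gn_lin]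
  have h1 := gn_lin M ω (Finset.univ : Finset Unit) (fun _ => β) i n (fun _ _ => 1) v
  simp only [Finset.univ_unique, Finset.sum_singleton] at h1
  rw [← h1]
  exact gn_mono M ω i n (fun v => by simpa using h v) v

theorem xw_val {j : ℕ} {z : List (V × Val)} (h : M.xw ω j z ≠ 0) {i : ℕ} {s : V × Val}
    (hs : z[i]? = some s) : val ω (j + i) s.1 = some s.2 := by
  induction z generalizing i j with
  | nil => simp at hs
  | cons r l ih =>
    have h' : ind (val ω j r.1 = some r.2) / M.P r.1 r.2 * M.xw ω (j + 1) l ≠ 0 := h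
    cases i with
    | zero =>
      have hr : r = s := by simpa using hs
      subst hr
      by_contra h0
      rw [Nat.add_zero] at h0
      exact (left_ne_zero_of_mul h') (by rw [ind_not h0, zero_div])
    | succ i =>
      have h1 := ih (right_ne_zero_of_mul h') (i := i) (by simpa using hs)
      rwa [show j + (i + 1) = j + 1 + i by omega]

end ops

/-! ### Kernels and sums over arcs -/

section arcs

variable {G : Type u} [Group G] [Fintype G] [DecidableEq G] {c : Ctx G} {N : ℕ} (g : Gad c N)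
  {m : ℕ} (lv : G → ZMod m) (u v : G → ℝ) (i : ZMod m)

theorem UM_nonneg (S : Finset G) (x y : G) : 0 ≤ UM S x y :=
  div_nonneg (ind_nonneg _) (Nat.cast_nonneg _)

theorem UM_symm {S : Finset G} (hS : Sy S) (x y : G) : UM S x y = UM S y x := by
  have h : ∀ x y : G, x⁻¹ * y ∈ S → y⁻¹ * x ∈ S := fun x y h => by
    simpa using hS.inv _ h
  show ind (x⁻¹ * y ∈ S) / _ = ind (y⁻¹ * x ∈ S) / _
  rw [show (x⁻¹ * y ∈ S) = (y⁻¹ * x ∈ S) from propext ⟨h x y, h y x⟩]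

theorem aB_nonneg (x y : G) : 0 ≤ g.aB lv x y := by
  unfold Gad.aB
  refine mul_nonneg (div_nonneg (Nat.cast_nonneg _) (mul_nonneg (by norm_num) ?_)) (ind_nonneg _)
  exact Nat.cast_nonneg _

theorem aC_nonneg (hX : 0 < c.X) (x y : G) : 0 ≤ g.aC lv x y := by
  unfold Gad.aC
  exact mul_nonneg (div_nonneg (div_nonneg zero_le_one (pow_nonneg hX.le _))
    (Nat.cast_nonneg _)) (ind_nonneg _)

theorem genB (hX : 0 < c.X) (hm : 0 < (m : ℝ)) (hb : 0 < c.b) (cond : G → G → Prop)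
    (hc : ∀ x y, cond x y → g.RR x ∧ g.CC y ∧ ¬ (g.W x ∧ g.W y) ∧ lv x = i ∧ lv y = i + 1) :
    ∑ x, ∑ y, ind (cond x y) * UM c.B x y * |u x - v y| ≤ 2 / m * g.bc lv u v i := by
  unfold Gad.bc
  rw [Finset.mul_sum]
  refine Finset.sum_le_sum fun x _ => ?_
  rw [Finset.mul_sum]
  refine Finset.sum_le_sum fun y _ => ?_
  have hB := aB_nonneg g lv x y
  have hC := aC_nonneg g lv hX x y
  have hd := abs_nonneg (u x - v y)
  have hi := ind_nonneg (lv x = i ∧ lv y = i + 1)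
  by_cases h : cond x y
  · obtain ⟨h1, h2, h3, h4, h5⟩ := hc x y h
    rw [ind_of h, ind_of ⟨h4, h5⟩]
    have h6 : UM c.B x y = 2 / m * g.aB lv x y := by
      show ind (x⁻¹ * y ∈ c.B) / c.b = _
      unfold Gad.aB
      by_cases h7 : x⁻¹ * y ∈ c.B
      · rw [ind_of h7, ind_of ⟨h1, h2, h7, h3, Or.inl (by rw [h4, h5])⟩]
        field_simp
      · rw [ind_not h7, ind_not (fun h8 => h7 h8.2.2.1)]
        simp
    rw [h6]
    have h8 : 0 ≤ 2 / (m : ℝ) * (g.aC lv x y * |u x - v y|) :=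
      mul_nonneg (by positivity) (mul_nonneg hC hd)
    calc 1 * (2 / (m : ℝ) * g.aB lv x y) * |u x - v y|
        ≤ 1 * (2 / (m : ℝ) * g.aB lv x y) * |u x - v y| +
          2 / (m : ℝ) * (g.aC lv x y * |u x - v y|) := by linarith
      _ = 2 / (m : ℝ) * (1 * (g.aB lv x y + g.aC lv x y) * |u x - v y|) := by ring
  · rw [ind_not h, zero_mul, zero_mul]
    exact mul_nonneg (by positivity) (mul_nonneg (mul_nonneg hi (add_nonneg hB hC)) hd)

theorem genC (hX : 0 < c.X) (hi0 : i = 0) (cond : G → G → Prop)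
    (hc : ∀ x y, cond x y → ¬ g.W x ∧ ¬ g.W y ∧ lv x = i ∧ lv y = i + 1) :
    ∑ x, ∑ y, ind (cond x y) * UM c.C x y * |u x - v y| ≤ c.X ^ 100 * g.bc lv u v i := by
  unfold Gad.bc
  rw [Finset.mul_sum]
  refine Finset.sum_le_sum fun x _ => ?_
  rw [Finset.mul_sum]
  refine Finset.sum_le_sum fun y _ => ?_
  have hB := aB_nonneg g lv x y
  have hC := aC_nonneg g lv hX x y
  have hd := abs_nonneg (u x - v y)
  have hi := ind_nonneg (lv x = i ∧ lv y = i + 1)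
  have hX1 : 0 < c.X ^ 100 := pow_pos hX _
  by_cases h : cond x y
  · obtain ⟨h1, h2, h4, h5⟩ := hc x y h
    rw [ind_of h, ind_of ⟨h4, h5⟩]
    have h6 : UM c.C x y = c.X ^ 100 * g.aC lv x y := by
      show ind (x⁻¹ * y ∈ c.C) / _ = _
      unfold Gad.aC
      by_cases h7 : x⁻¹ * y ∈ c.C
      · rw [ind_of h7, ind_of ⟨h1, h2, h7, by rw [h4, hi0], by rw [h5, hi0, zero_add]⟩]
        field_simp
      · rw [ind_not h7, ind_not (fun h8 => h7 h8.2.2.1)]
        simp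
    rw [h6]
    have h8 : 0 ≤ c.X ^ 100 * (g.aB lv x y * |u x - v y|) :=
      mul_nonneg hX1.le (mul_nonneg hB hd)
    calc 1 * (c.X ^ 100 * g.aC lv x y) * |u x - v y|
        ≤ 1 * (c.X ^ 100 * g.aC lv x y) * |u x - v y| +
          c.X ^ 100 * (g.aB lv x y * |u x - v y|) := by linarith
      _ = c.X ^ 100 * (1 * (g.aB lv x y + g.aC lv x y) * |u x - v y|) := by ring
  · rw [ind_not h, zero_mul, zero_mul]
    exact mul_nonneg hX1.le (mul_nonneg (mul_nonneg hi (add_nonneg hB hC)) hd)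

/-- The bounding kernel. -/
noncomputable def K2 (c : Ctx G) (h e : ℝ) (x y : G) : ℝ := h * UM c.B x y + e * UM c.C x y

theorem K2_symm (c : Ctx G) (h e : ℝ) (x y : G) : K2 c h e x y = K2 c h e y x := by
  unfold K2
  rw [UM_symm c.hB x y, UM_symm c.hC x y]

/-- Sum over the arcs of class `i` between vertices outside of the gadgets. -/
noncomputable def SK (h e : ℝ) : ℝ :=
  ∑ x, ∑ y, ind ((¬ g.W x ∧ lv x = i) ∧ (¬ g.W y ∧ lv y = i + 1)) * K2 c h e x y * |u x - v y|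

theorem SK_le (hX : 0 < c.X) (hm : 0 < (m : ℝ)) (hb : 0 < c.b) (h e : ℝ) (h0 : 0 ≤ h)
    (e0 : 0 ≤ e) (he : e = 0 ∨ i = 0) :
    SK g lv u v i h e ≤ (h * (2 / m) + e * c.X ^ 100) * g.bc lv u v i := by
  have h1 : SK g lv u v i h e =
      h * (∑ x, ∑ y, ind ((¬ g.W x ∧ lv x = i) ∧ (¬ g.W y ∧ lv y = i + 1)) * UM c.B x y *
        |u x - v y|) +
      e * (∑ x, ∑ y, ind ((¬ g.W x ∧ lv x = i) ∧ (¬ g.W y ∧ lv y = i + 1)) * UM c.C x y *
        |u x - v y|) := by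
    unfold SK K2
    rw [Finset.mul_sum, Finset.mul_sum, ← Finset.sum_add_distrib]
    refine Finset.sum_congr rfl fun x _ => ?_
    rw [Finset.mul_sum, Finset.mul_sum, ← Finset.sum_add_distrib]
    refine Finset.sum_congr rfl fun y _ => ?_
    ring
  rw [h1]
  have h2 := mul_le_mul_of_nonneg_left (genB g lv u v i hX hm hb
    (fun x y => (¬ g.W x ∧ lv x = i) ∧ (¬ g.W y ∧ lv y = i + 1))
    (fun x y hxy => ⟨Or.inl hxy.1.1, Or.inl hxy.2.1, fun h => hxy.1.1 h.1, hxy.1.2, hxy.2.2⟩)) h0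
  have h3 : e * (∑ x, ∑ y, ind ((¬ g.W x ∧ lv x = i) ∧ (¬ g.W y ∧ lv y = i + 1)) *
      UM c.C x y * |u x - v y|) ≤ e * (c.X ^ 100 * g.bc lv u v i) := by
    rcases he with he | he
    · rw [he, zero_mul, zero_mul]
    · exact mul_le_mul_of_nonneg_left (genC g lv u v i hX he
        (fun x y => (¬ g.W x ∧ lv x = i) ∧ (¬ g.W y ∧ lv y = i + 1))
        (fun x y hxy => ⟨hxy.1.1, hxy.2.1, hxy.1.2, hxy.2.2⟩)) e0
  calc _ ≤ h * (2 / m * g.bc lv u v i) + e * (c.X ^ 100 * g.bc lv u v i) := add_le_add h2 h3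
    _ = _ := by ring

end arcs

/-! ### The model -/

section model

variable {G : Type u} [Group G] [Fintype G] [DecidableEq G] {c : Ctx G} {N : ℕ} (g : Gad c N)
  {m : ℕ} [NeZero m] (lv : G → ZMod m) (u v : G → ℝ) (i : ZMod m) {τ : Bool} {ρ : ℝ}
  {M : LM G (ZMod m) (6 * c.k)}

/-- Level of the slot `j`. -/
def lj (i : ZMod m) (j : ℕ) : ZMod m := if Even j then i + 1 else i

/-- Potential at the position `p`. -/
def Fp (u v : G → ℝ) (p : ℕ) (w : G) : ℝ := if Even p then u w else v w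

theorem lw_le (hM : c.IsLev τ ρ m i M) (hρ : 0 < ρ) (hm : 0 < (m : ℝ))
    (ω : Fld (6 * c.k) G (ZMod m)) (j : ℕ) (x : G) (e : ZMod m) :
    M.lw ω j x e ≤ M.H0 * ind (e = lj i j) := by
  unfold LM.lw
  rw [hM.kap, hM.P, hM.H0]
  have h1 := ind_nonneg (e = lj i j)
  have h2 : ind (val ω j x = some e) / (ρ / m) ≤ m / ρ := by
    calc ind (val ω j x = some e) / (ρ / m) ≤ 1 / (ρ / m) :=
          div_le_div_of_nonneg_right (ind_le_one _) (div_pos hρ hm).le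
      _ = m / ρ := by rw [one_div_div]
  calc ind (e = if Even j then i + 1 else i) * (ind (val ω j x = some e) / (ρ / m))
      ≤ ind (e = lj i j) * (m / ρ) := mul_le_mul_of_nonneg_left h2 h1
    _ = _ := mul_comm _ _

theorem acb (hM : c.IsLev τ ρ m i M) (hX : 1 ≤ c.X) (j : ℕ) (A B : ℝ) (w w' : G)
    (hA0 : 0 ≤ A) (hA1 : A ≤ 4 * M.H0 * c.X) (hA2 : M.sp j → A ≤ 2)
    (hB0 : 0 ≤ B) (hB1 : B ≤ 4 * M.H0 * c.X) (hB2 : M.sp (j + 2) → B ≤ 2) :
    A * M.C (j + 1) w w' * B ≤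
      K2 c (if τ then 8 * M.H0 * c.X else 4) (if τ then 4 else 0) w w' := by
  have hH := M.hH0
  have hU := UM_nonneg c.B w w'
  have hV := UM_nonneg c.C w w'
  have hHX : 1 ≤ M.H0 * c.X := one_le_mul_of_one_le_of_one_le hH hX
  rw [hM.C]
  unfold K2 cO
  cases τ with
  | false =>
    have hs : ∀ j, M.sp j := fun j => (hM.sp j).2 (fun h => by simp at h)
    have h1 : A * B ≤ 2 * 2 := mul_le_mul (hA2 (hs _)) (hB2 (hs _)) hB0 (by norm_num)
    have h2 : (if 3 ∣ j + 1 + 1 then WM c.B c.C false else UM c.B) = UM c.B := by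
      unfold WM
      simp
    rw [h2]
    simp only [Bool.false_eq_true, if_false, zero_mul, add_zero]
    calc A * UM c.B w w' * B = (A * B) * UM c.B w w' := by ring
      _ ≤ 2 * 2 * UM c.B w w' := mul_le_mul_of_nonneg_right h1 hU
      _ = 4 * UM c.B w w' := by ring
  | true =>
    simp only [if_true]
    by_cases h3 : 3 ∣ j + 1 + 1
    · have hs1 : M.sp j := (hM.sp j).2 (fun _ h => by omega)
      have hs2 : M.sp (j + 2) := (hM.sp (j + 2)).2 (fun _ h => by omega)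
      have h1 : A * B ≤ 2 * 2 := mul_le_mul (hA2 hs1) (hB2 hs2) hB0 (by norm_num)
      rw [if_pos h3]
      have h2 : WM c.B c.C true w w' = 1 / 2 * (UM c.B w w' + UM c.C w w') := by
        unfold WM
        simp [Matrix.smul_apply, Matrix.add_apply]
      rw [h2]
      calc A * (1 / 2 * (UM c.B w w' + UM c.C w w')) * B
          = (A * B) * (1 / 2 * (UM c.B w w' + UM c.C w w')) := by ring
        _ ≤ 2 * 2 * (1 / 2 * (UM c.B w w' + UM c.C w w')) :=
          mul_le_mul_of_nonneg_right h1 (by positivity)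
        _ ≤ _ := by nlinarith
    · rw [if_neg h3]
      have h1 : A * B ≤ 2 * (4 * M.H0 * c.X) := by
        by_cases h4 : 3 ∣ j + 1
        · have hs2 : M.sp (j + 2) := (hM.sp (j + 2)).2 (fun _ h => by omega)
          calc A * B ≤ (4 * M.H0 * c.X) * 2 := mul_le_mul hA1 (hB2 hs2) hB0 (by nlinarith)
            _ = _ := by ring
        · have hs1 : M.sp j := (hM.sp j).2 (fun _ h => h4 h)
          exact mul_le_mul (hA2 hs1) hB1 hB0 (by norm_num)
      calc A * UM c.B w w' * B = (A * B) * UM c.B w w' := by ring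
        _ ≤ 2 * (4 * M.H0 * c.X) * UM c.B w w' := mul_le_mul_of_nonneg_right h1 hU
        _ = 8 * M.H0 * c.X * UM c.B w w' := by ring
        _ ≤ _ := by nlinarith

theorem sum_lab (P : G → Prop) (ℓ : ZMod m) (f : G → ℝ) :
    ∑ s : G × ZMod m, ind (P s.1 ∧ lv s.1 = s.2) * ind (s.2 = ℓ) * f s.1 =
      ∑ w, ind (P w ∧ lv w = ℓ) * f w := by
  rw [Fintype.sum_prod_type]
  refine Finset.sum_congr rfl fun w _ => ?_
  rw [Finset.sum_eq_single ℓ]
  · show ind (P w ∧ lv w = ℓ) * ind (ℓ = ℓ) * f w = _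
    rw [ind_of rfl, mul_one]
  · intro l _ hl
    show ind (P w ∧ lv w = l) * ind (l = ℓ) * f w = 0
    rw [ind_not hl, mul_zero, zero_mul]
  · intro h
    exact absurd (Finset.mem_univ _) h

/-- The site condition. -/
def Qs (s : G × ZMod m) : Prop := ¬ g.W s.1 ∧ lv s.1 = s.2

/-- Bilinear sum over two consecutive sites. -/
noncomputable def Bil (M : LM G (ZMod m) (6 * c.k)) (ω : Fld (6 * c.k) G (ZMod m)) (j : ℕ)
    (A B : G → ℝ) : ℝ :=
  ∑ s : G × ZMod m, ∑ s' : G × ZMod m, ind (Qs g lv s) * ind (Qs g lv s') *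
    (A s.1 * M.lw ω j s.1 s.2 * M.C (j + 1) (M.ex s.1 s.2) s'.1 * M.lw ω (j + 1) s'.1 s'.2 *
      B (M.ex s'.1 s'.2)) * |Fp u v (j + 1) s.1 - Fp u v (j + 2) s'.1|

theorem bil_le (hM : c.IsLev τ ρ m i M) (hρ : 0 < ρ) (hm : 0 < (m : ℝ))
    (ω : Fld (6 * c.k) G (ZMod m)) (j : ℕ) (A B : G → ℝ) (hA : ∀ w, 0 ≤ A w) (hB : ∀ w, 0 ≤ B w)
    (h e : ℝ) (hK : ∀ w w', A w * M.C (j + 1) w w' * B w' ≤ K2 c h e w w') :
    Bil g lv u v M ω j A B ≤ M.H0 ^ 2 * SK g lv u v i h e := by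
  have hH := M.hH0
  have hK0 : ∀ w w', 0 ≤ K2 c h e w w' := fun w w' =>
    (mul_nonneg (mul_nonneg (hA w) (M.hC0 _ _ _)) (hB w')).trans (hK w w')
  have h1 : Bil g lv u v M ω j A B ≤ ∑ s : G × ZMod m, ∑ s' : G × ZMod m,
      ind (¬ g.W s.1 ∧ lv s.1 = s.2) * ind (s.2 = lj i j) *
        (ind (¬ g.W s'.1 ∧ lv s'.1 = s'.2) * ind (s'.2 = lj i (j + 1)) *
        (M.H0 ^ 2 * (K2 c h e s.1 s'.1 * |Fp u v (j + 1) s.1 - Fp u v (j + 2) s'.1|))) := by
    unfold Bil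
    refine Finset.sum_le_sum fun s _ => Finset.sum_le_sum fun s' _ => ?_
    rw [hM.ex, hM.ex]
    have hq1 := ind_nonneg (Qs g lv s)
    have hq2 := ind_nonneg (Qs g lv s')
    have hd := abs_nonneg (Fp u v (j + 1) s.1 - Fp u v (j + 2) s'.1)
    have hl1 := lw_le i hM hρ hm ω j s.1 s.2
    have hl2 := lw_le i hM hρ hm ω (j + 1) s'.1 s'.2
    have hl3 := lw_nonneg M ω j s.1 s.2
    have hl4 := lw_nonneg M ω (j + 1) s'.1 s'.2
    have hi1 := ind_nonneg (s.2 = lj i j)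
    have hll := mul_le_mul hl1 hl2 hl4 (mul_nonneg (by linarith) hi1)
    have hKK := hK s.1 s'.1
    have hK1 := mul_nonneg (mul_nonneg (hA s.1) (M.hC0 (j + 1) s.1 s'.1)) (hB s'.1)
    have hmain := mul_le_mul hKK hll (mul_nonneg hl3 hl4) (hK0 s.1 s'.1)
    calc ind (Qs g lv s) * ind (Qs g lv s') *
        (A s.1 * M.lw ω j s.1 s.2 * M.C (j + 1) s.1 s'.1 * M.lw ω (j + 1) s'.1 s'.2 *
        B s'.1) * |Fp u v (j + 1) s.1 - Fp u v (j + 2) s'.1|
        = ind (Qs g lv s) * ind (Qs g lv s') * |Fp u v (j + 1) s.1 - Fp u v (j + 2) s'.1| *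
          (A s.1 * M.C (j + 1) s.1 s'.1 * B s'.1 *
            (M.lw ω j s.1 s.2 * M.lw ω (j + 1) s'.1 s'.2)) := by ring
      _ ≤ ind (Qs g lv s) * ind (Qs g lv s') * |Fp u v (j + 1) s.1 - Fp u v (j + 2) s'.1| *
          (K2 c h e s.1 s'.1 *
            (M.H0 * ind (s.2 = lj i j) * (M.H0 * ind (s'.2 = lj i (j + 1))))) :=
          mul_le_mul_of_nonneg_left hmain (mul_nonneg (mul_nonneg hq1 hq2) hd)
      _ = _ := by
          unfold Qs
          ring
  have h2 : ∑ s : G × ZMod m, ∑ s' : G × ZMod m,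
      ind (¬ g.W s.1 ∧ lv s.1 = s.2) * ind (s.2 = lj i j) *
        (ind (¬ g.W s'.1 ∧ lv s'.1 = s'.2) * ind (s'.2 = lj i (j + 1)) *
        (M.H0 ^ 2 * (K2 c h e s.1 s'.1 * |Fp u v (j + 1) s.1 - Fp u v (j + 2) s'.1|))) =
      ∑ w, ∑ w', ind (¬ g.W w ∧ lv w = lj i j) * (ind (¬ g.W w' ∧ lv w' = lj i (j + 1)) *
        (M.H0 ^ 2 * (K2 c h e w w' * |Fp u v (j + 1) w - Fp u v (j + 2) w'|))) := by
    simp_rw [← Finset.mul_sum]
    rw [sum_lab lv (fun w => ¬ g.W w) (lj i j) (fun w => ∑ s' : G × ZMod m,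
      (ind (¬ g.W s'.1 ∧ lv s'.1 = s'.2) * ind (s'.2 = lj i (j + 1)) *
        (M.H0 ^ 2 * (K2 c h e w s'.1 * |Fp u v (j + 1) w - Fp u v (j + 2) s'.1|))))]
    refine Finset.sum_congr rfl fun w _ => ?_
    rw [sum_lab lv (fun w => ¬ g.W w) (lj i (j + 1)) (fun w' =>
        (M.H0 ^ 2 * (K2 c h e w w' * |Fp u v (j + 1) w - Fp u v (j + 2) w'|)))]
  refine h1.trans (le_of_eq ?_)
  rw [h2]
  unfold SK
  by_cases hj : Even j
  · have e1 : lj i j = i + 1 := if_pos hj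
    have e2 : lj i (j + 1) = i := if_neg (by simpa [Nat.even_add_one] using hj)
    have e3 : ∀ w, Fp u v (j + 1) w = v w := fun w =>
      if_neg (by simpa [Nat.even_add_one] using hj)
    have e4 : ∀ w, Fp u v (j + 2) w = u w := fun w =>
      if_pos (by simpa [Nat.even_add] using hj)
    rw [Finset.sum_comm, Finset.mul_sum]
    refine Finset.sum_congr rfl fun x _ => ?_
    rw [Finset.mul_sum]
    refine Finset.sum_congr rfl fun y _ => ?_
    rw [e1, e2, e3, e4, K2_symm c h e y x, ind_and (¬ g.W x ∧ lv x = i), abs_sub_comm]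
    ring
  · have e1 : lj i j = i := if_neg hj
    have e2 : lj i (j + 1) = i + 1 := if_pos (by simpa [Nat.even_add_one] using hj)
    have e3 : ∀ w, Fp u v (j + 1) w = u w := fun w =>
      if_pos (by simpa [Nat.even_add_one] using hj)
    have e4 : ∀ w, Fp u v (j + 2) w = v w := fun w =>
      if_neg (by simpa [Nat.even_add] using hj)
    rw [Finset.mul_sum]
    refine Finset.sum_congr rfl fun x _ => ?_
    rw [Finset.mul_sum]
    refine Finset.sum_congr rfl fun y _ => ?_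
    rw [e1, e2, e3, e4, ind_and (¬ g.W x ∧ lv x = i)]
    ring

theorem bil_nonneg (M : LM G (ZMod m) (6 * c.k)) (ω : Fld (6 * c.k) G (ZMod m)) (j : ℕ)
    (A B : G → ℝ) (hA : ∀ w, 0 ≤ A w) (hB : ∀ w, 0 ≤ B w) : 0 ≤ Bil g lv u v M ω j A B := by
  unfold Bil
  refine Finset.sum_nonneg fun s _ => Finset.sum_nonneg fun s' _ => ?_
  refine mul_nonneg (mul_nonneg (mul_nonneg (ind_nonneg _) (ind_nonneg _)) ?_) (abs_nonneg _)
  exact mul_nonneg (mul_nonneg (mul_nonneg (mul_nonneg (hA _) (lw_nonneg _ _ _ _ _))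
    (M.hC0 _ _ _)) (lw_nonneg _ _ _ _ _)) (hB _)

theorem bil_linA (M : LM G (ZMod m) (6 * c.k)) (ω : Fld (6 * c.k) G (ZMod m)) (j : ℕ)
    {κ : Type w} (S : Finset κ) (α : κ → ℝ) (A : κ → G → ℝ) (B : G → ℝ) :
    ∑ x ∈ S, α x * Bil g lv u v M ω j (A x) B =
      Bil g lv u v M ω j (fun w => ∑ x ∈ S, α x * A x w) B := by
  unfold Bil
  simp only [Finset.mul_sum, Finset.sum_mul]
  rw [Finset.sum_comm]
  refine Finset.sum_congr rfl fun s _ => ?_
  rw [Finset.sum_comm]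
  refine Finset.sum_congr rfl fun s' _ => Finset.sum_congr rfl fun x _ => ?_
  ring

theorem bil_linB (M : LM G (ZMod m) (6 * c.k)) (ω : Fld (6 * c.k) G (ZMod m)) (j : ℕ)
    {κ : Type w} (S : Finset κ) (α : κ → ℝ) (A : G → ℝ) (B : κ → G → ℝ) :
    ∑ x ∈ S, α x * Bil g lv u v M ω j A (B x) =
      Bil g lv u v M ω j A (fun w => ∑ x ∈ S, α x * B x w) := by
  unfold Bil
  simp only [Finset.mul_sum, Finset.sum_mul]
  rw [Finset.sum_comm]
  refine Finset.sum_congr rfl fun s _ => ?_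
  rw [Finset.sum_comm]
  refine Finset.sum_congr rfl fun s' _ => Finset.sum_congr rfl fun x _ => ?_
  ring

/-- The first step. -/
noncomputable def EX (M : LM G (ZMod m) (6 * c.k)) (ω : Fld (6 * c.k) G (ZMod m)) (B : G → ℝ)
    (x : G) : ℝ :=
  ∑ s : G × ZMod m, ind (Qs g lv s) * (M.C 0 x s.1 * M.lw ω 0 s.1 s.2 * B (M.ex s.1 s.2)) *
    |u x - v s.1|

/-- The last step. -/
noncomputable def EY (M : LM G (ZMod m) (6 * c.k)) (ω : Fld (6 * c.k) G (ZMod m)) (A : G → ℝ)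
    (y : G) : ℝ :=
  ∑ s : G × ZMod m, ind (Qs g lv s) *
    (A s.1 * M.lw ω (6 * c.k - 1) s.1 s.2 * M.C (6 * c.k) (M.ex s.1 s.2) y) * |u s.1 - v y|

theorem EX_nonneg (M : LM G (ZMod m) (6 * c.k)) (ω : Fld (6 * c.k) G (ZMod m)) (B : G → ℝ)
    (hB : ∀ w, 0 ≤ B w) (x : G) : 0 ≤ EX g lv u v M ω B x := by
  unfold EX
  exact Finset.sum_nonneg fun s _ => mul_nonneg (mul_nonneg (ind_nonneg _)
    (mul_nonneg (mul_nonneg (M.hC0 _ _ _) (lw_nonneg _ _ _ _ _)) (hB _))) (abs_nonneg _)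

theorem EY_nonneg (M : LM G (ZMod m) (6 * c.k)) (ω : Fld (6 * c.k) G (ZMod m)) (A : G → ℝ)
    (hA : ∀ w, 0 ≤ A w) (y : G) : 0 ≤ EY g lv u v M ω A y := by
  unfold EY
  exact Finset.sum_nonneg fun s _ => mul_nonneg (mul_nonneg (ind_nonneg _)
    (mul_nonneg (mul_nonneg (hA _) (lw_nonneg _ _ _ _ _)) (M.hC0 _ _ _))) (abs_nonneg _)

theorem C_not3 (hM : c.IsLev τ ρ m i M) (j : ℕ) (hj : ¬ 3 ∣ j + 1) (x y : G) :
    M.C j x y = UM c.B x y := by
  rw [hM.C]
  unfold cO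
  rw [if_neg hj]

theorem EX_le (hM : c.IsLev τ ρ m i M) (hρ : 0 < ρ) (hX : 0 < c.X) (hm : 0 < (m : ℝ))
    (hb : 0 < c.b) (ω : Fld (6 * c.k) G (ZMod m)) (B : G → ℝ) (α : ℝ) (hB0 : ∀ w, 0 ≤ B w)
    (hB : ∀ w, B w ≤ α) :
    ∑ x, ind (g.RR x ∧ lv x = i) * EX g lv u v M ω B x ≤
      M.H0 * α * (2 / m * g.bc lv u v i) := by
  have hH := M.hH0
  have hα : 0 ≤ α := (hB0 1).trans (hB 1)
  have h1 : ∀ x, EX g lv u v M ω B x ≤
      ∑ w, ind (¬ g.W w ∧ lv w = i + 1) * (M.H0 * α * (UM c.B x w * |u x - v w|)) := by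
    intro x
    rw [← sum_lab lv (fun w => ¬ g.W w) (i + 1)
      (fun w => M.H0 * α * (UM c.B x w * |u x - v w|))]
    unfold EX
    refine Finset.sum_le_sum fun s _ => ?_
    rw [hM.ex, C_not3 i hM 0 (by omega)]
    have hl := lw_le i hM hρ hm ω 0 s.1 s.2
    have hl0 := lw_nonneg M ω 0 s.1 s.2
    rw [show lj i 0 = i + 1 from if_pos (by norm_num)] at hl
    have hq := ind_nonneg (Qs g lv s)
    have hd := abs_nonneg (u x - v s.1)
    have hU := UM_nonneg c.B x s.1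
    have h2 := mul_le_mul hl (hB s.1) (hB0 s.1)
      (mul_nonneg (by linarith) (ind_nonneg (s.2 = i + 1)))
    calc ind (Qs g lv s) * (UM c.B x s.1 * M.lw ω 0 s.1 s.2 * B s.1) * |u x - v s.1|
        = ind (Qs g lv s) * UM c.B x s.1 * |u x - v s.1| * (M.lw ω 0 s.1 s.2 * B s.1) := by ring
      _ ≤ ind (Qs g lv s) * UM c.B x s.1 * |u x - v s.1| *
          (M.H0 * ind (s.2 = i + 1) * α) :=
          mul_le_mul_of_nonneg_left h2 (mul_nonneg (mul_nonneg hq hU) hd)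
      _ = _ := by
          unfold Qs
          ring
  calc ∑ x, ind (g.RR x ∧ lv x = i) * EX g lv u v M ω B x
      ≤ ∑ x, ind (g.RR x ∧ lv x = i) *
        ∑ w, ind (¬ g.W w ∧ lv w = i + 1) * (M.H0 * α * (UM c.B x w * |u x - v w|)) :=
        Finset.sum_le_sum fun x _ => mul_le_mul_of_nonneg_left (h1 x) (ind_nonneg _)
    _ = M.H0 * α * ∑ x, ∑ w, ind ((g.RR x ∧ lv x = i) ∧ (¬ g.W w ∧ lv w = i + 1)) *
          UM c.B x w * |u x - v w| := by
        rw [Finset.mul_sum]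
        refine Finset.sum_congr rfl fun x _ => ?_
        rw [Finset.mul_sum, Finset.mul_sum]
        refine Finset.sum_congr rfl fun w _ => ?_
        rw [ind_and (g.RR x ∧ lv x = i)]
        ring
    _ ≤ _ := mul_le_mul_of_nonneg_left (genB g lv u v i hX hm hb
        (fun x w => (g.RR x ∧ lv x = i) ∧ (¬ g.W w ∧ lv w = i + 1))
        (fun x w h => ⟨h.1.1, Or.inl h.2.1, fun h3 => h.2.1 h3.2, h.1.2, h.2.2⟩))
        (mul_nonneg (by linarith) hα)

theorem EY_le (hM : c.IsLev τ ρ m i M) (hρ : 0 < ρ) (hX : 0 < c.X) (hm : 0 < (m : ℝ))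
    (hb : 0 < c.b) (hk : 1 ≤ c.k) (ω : Fld (6 * c.k) G (ZMod m)) (A : G → ℝ) (α : ℝ)
    (hA0 : ∀ w, 0 ≤ A w) (hA : ∀ w, A w ≤ α) :
    ∑ y, ind (g.CC y ∧ lv y = i + 1) * EY g lv u v M ω A y ≤
      M.H0 * α * (2 / m * g.bc lv u v i) := by
  have hH := M.hH0
  have hα : 0 ≤ α := (hA0 1).trans (hA 1)
  have h1 : ∀ y, EY g lv u v M ω A y ≤
      ∑ w, ind (¬ g.W w ∧ lv w = i) * (M.H0 * α * (UM c.B w y * |u w - v y|)) := by
    intro y
    rw [← sum_lab lv (fun w => ¬ g.W w) i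
      (fun w => M.H0 * α * (UM c.B w y * |u w - v y|))]
    unfold EY
    refine Finset.sum_le_sum fun s _ => ?_
    rw [hM.ex, C_not3 i hM (6 * c.k) (by omega)]
    have hl := lw_le i hM hρ hm ω (6 * c.k - 1) s.1 s.2
    have hl0 := lw_nonneg M ω (6 * c.k - 1) s.1 s.2
    rw [show lj i (6 * c.k - 1) = i from if_neg (by
      rw [Nat.even_iff]
      omega)] at hl
    have hq := ind_nonneg (Qs g lv s)
    have hd := abs_nonneg (u s.1 - v y)
    have hU := UM_nonneg c.B s.1 y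
    have h2 := mul_le_mul hl (hA s.1) (hA0 s.1)
      (mul_nonneg (by linarith) (ind_nonneg (s.2 = i)))
    calc ind (Qs g lv s) * (A s.1 * M.lw ω (6 * c.k - 1) s.1 s.2 * UM c.B s.1 y) *
          |u s.1 - v y|
        = ind (Qs g lv s) * UM c.B s.1 y * |u s.1 - v y| *
          (M.lw ω (6 * c.k - 1) s.1 s.2 * A s.1) := by ring
      _ ≤ ind (Qs g lv s) * UM c.B s.1 y * |u s.1 - v y| *
          (M.H0 * ind (s.2 = i) * α) :=
          mul_le_mul_of_nonneg_left h2 (mul_nonneg (mul_nonneg hq hU) hd)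
      _ = _ := by
          unfold Qs
          ring
  calc ∑ y, ind (g.CC y ∧ lv y = i + 1) * EY g lv u v M ω A y
      ≤ ∑ y, ind (g.CC y ∧ lv y = i + 1) *
        ∑ w, ind (¬ g.W w ∧ lv w = i) * (M.H0 * α * (UM c.B w y * |u w - v y|)) :=
        Finset.sum_le_sum fun x _ => mul_le_mul_of_nonneg_left (h1 x) (ind_nonneg _)
    _ = M.H0 * α * ∑ w, ∑ y, ind ((¬ g.W w ∧ lv w = i) ∧ (g.CC y ∧ lv y = i + 1)) *
          UM c.B w y * |u w - v y| := by
        rw [Finset.sum_comm (γ := G), Finset.mul_sum]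
        refine Finset.sum_congr rfl fun y _ => ?_
        rw [Finset.mul_sum, Finset.mul_sum]
        refine Finset.sum_congr rfl fun w _ => ?_
        rw [ind_and (¬ g.W w ∧ lv w = i)]
        ring
    _ ≤ _ := mul_le_mul_of_nonneg_left (genB g lv u v i hX hm hb
        (fun w y => (¬ g.W w ∧ lv w = i) ∧ (g.CC y ∧ lv y = i + 1))
        (fun w y h => ⟨Or.inl h.1.1, h.2.1, fun h3 => h.1.1 h3.1, h.1.2, h.2.2⟩))
        (mul_nonneg (by linarith) hα)

theorem pr_zero {S : Type w} [Fintype S] (a : ℕ) (R : List S → ℝ) (E : List S → Prop)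
    (h : ∀ z, z.length = a → R z ≠ 0 → ¬ E z) : sumL a (fun z => R z * ind (E z)) = 0 := by
  have h1 : sumL a (fun z => R z * ind (E z)) = sumL a (fun z => R z * 0) := by
    refine sumL_congr a fun z hz => ?_
    by_cases h0 : R z = 0
    · rw [h0, zero_mul, zero_mul]
    · rw [ind_not (h z hz h0)]
  rw [h1, sumL_mul, mul_zero]

/-- The X-part of the bound. -/
noncomputable def LXt (M : LM G (ZMod m) (6 * c.k)) (ω : Fld (6 * c.k) G (ZMod m)) (x : G) : ℝ :=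
  EX g lv u v M ω (M.Gn ω (fun _ => 1) M.jc 1) x +
    ∑ j ∈ Finset.range M.jc, Bil g lv u v M ω j (M.Fn ω 0 (M.C 0 x) j)
      (M.Gn ω (fun _ => 1) (M.jc - j - 1) (j + 2))

/-- The Y-part of the bound. -/
noncomputable def LYt (M : LM G (ZMod m) (6 * c.k)) (ω : Fld (6 * c.k) G (ZMod m)) (y : G) : ℝ :=
  EY g lv u v M ω (M.Fn ω M.jc (fun _ => 1) (6 * c.k - 1 - M.jc)) y +
    ∑ j ∈ Finset.Ico M.jc (6 * c.k - 1), Bil g lv u v M ω j
      (M.Fn ω M.jc (fun _ => 1) (j - M.jc))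
      (M.Gn ω (fun w => M.C (6 * c.k) w y) (6 * c.k - 2 - j) (j + 2))

theorem point (hR : RLAW_S.{u, 0}) (hk : 1 ≤ c.k) (M : LM G (ZMod m) (6 * c.k)) {T : ℕ}
    (ω : Fin T → Fld (6 * c.k) G (ZMod m)) (D0 : G → Prop) (X q : ℝ) (hX : 1 ≤ X) (hq : 0 < q)
    (t : Fin T) (x y : G) (hf : (9 / 10 : ℝ) * q ≤ M.fk 0 (6 * c.k) x y)
    (hZ : M.fk 0 (6 * c.k) x y / 4 ≤ M.Zg ω (fun w => g.W w ∨ D0 w) (X ^ 5 * q) t x y)
    (hlv : ∀ v, ¬ g.W v → ¬ D0 v → ∀ t j l, val (ω t) j v = some l →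
      (∀ t' < t, ∀ j' l', val (ω t') j' v ≠ some l') →
      (∀ j' l', val (ω t) j' v = some l' → j' = j) → lv v = l) :
    |u x - v y| ≤ 5 * X ^ 5 * LXt g lv u v M (ω t) x + 5 * X ^ 5 * LYt g lv u v M (ω t) y := by
  obtain ⟨r0, r1, r2, r3, r4, r5, r6⟩ :=
    hR G (ZMod m) (6 * c.k) M X q T (fun w => g.W w ∨ D0 w) ω t x y hX hq hf hZ
  have hjc := M.hjc
  have hQ : ∀ z : List (G × ZMod m), z.length = 6 * c.k →
      M.R ω (fun w => g.W w ∨ D0 w) (X ^ 5 * q) t x y z ≠ 0 →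
      ∀ (j : ℕ) (s : G × ZMod m), z[j]? = some s → Qs g lv s := by
    intro z hz h0 j s hs
    obtain ⟨hg, _, hx⟩ := r2 z hz h0
    obtain ⟨c1, _, _, c4, c5⟩ := hg.1 j s hs s.1 (Or.inl rfl)
    refine ⟨fun h => c1 (Or.inl h), ?_⟩
    have hv := xw_val M (ω t) hx hs
    rw [Nat.zero_add] at hv
    refine hlv s.1 (fun h => c1 (Or.inl h)) (fun h => c1 (Or.inr h)) t j s.2 hv ?_ ?_
    · intro t' ht' j' l' h
      exact c4 t' ht' ⟨j', s.1, l', h, Or.inl rfl⟩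
    · intro j' l' h
      exact (c5 j' s.1 l' h (Or.inl rfl)).1
  refine (tele_sum (6 * c.k) (by omega) _ r0 r1 (fun j s => Fp u v (j + 1) s.1) (u x)
    (v y)).trans ?_
  have hb1 : ∀ s : G × ZMod m, sumL (6 * c.k) (fun z =>
      M.R ω (fun w => g.W w ∨ D0 w) (X ^ 5 * q) t x y z * ind (z[0]? = some s)) *
        |u x - Fp u v (0 + 1) s.1| ≤
      5 * X ^ 5 * (ind (Qs g lv s) * (M.C 0 x s.1 * M.lw (ω t) 0 s.1 s.2 *
        M.Gn (ω t) (fun _ => 1) M.jc 1 (M.ex s.1 s.2)) * |u x - v s.1|) := by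
    intro s
    have e1 : Fp u v (0 + 1) s.1 = v s.1 := if_neg (by norm_num)
    rw [e1]
    by_cases hs : Qs g lv s
    · rw [ind_of hs]
      refine (mul_le_mul_of_nonneg_right (r3 0 s (Nat.zero_le _))
        (abs_nonneg (u x - v s.1))).trans (le_of_eq ?_)
      show 5 * X ^ 5 * M.C 0 x s.1 * M.lw (ω t) 0 s.1 s.2 *
        M.Gn (ω t) (fun _ => 1) M.jc 1 (M.ex s.1 s.2) * _ = _
      ring
    · rw [pr_zero _ _ _ (fun z hz h0 h1 => hs (hQ z hz h0 0 s h1)), ind_not hs]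
      simp
  have hb3 : ∀ s : G × ZMod m, sumL (6 * c.k) (fun z =>
      M.R ω (fun w => g.W w ∨ D0 w) (X ^ 5 * q) t x y z * ind (z[6 * c.k - 1]? = some s)) *
        |Fp u v (6 * c.k - 1 + 1) s.1 - v y| ≤
      5 * X ^ 5 * (ind (Qs g lv s) * (M.Fn (ω t) M.jc (fun _ => 1) (6 * c.k - 1 - M.jc) s.1 *
        M.lw (ω t) (6 * c.k - 1) s.1 s.2 * M.C (6 * c.k) (M.ex s.1 s.2) y) *
          |u s.1 - v y|) := by
    intro s
    have e1 : Fp u v (6 * c.k - 1 + 1) s.1 = u s.1 := if_pos (by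
      rw [Nat.even_iff]
      omega)
    rw [e1]
    by_cases hs : Qs g lv s
    · rw [ind_of hs]
      refine (mul_le_mul_of_nonneg_right (r4 (6 * c.k - 1) s (by omega) (by omega))
        (abs_nonneg (u s.1 - v y))).trans (le_of_eq ?_)
      have e2 : 6 * c.k - 1 - (6 * c.k - 1) = 0 := Nat.sub_self _
      rw [e2]
      show 5 * X ^ 5 * M.Fn (ω t) M.jc (fun _ => 1) (6 * c.k - 1 - M.jc) s.1 *
        M.lw (ω t) (6 * c.k - 1) s.1 s.2 * M.C (6 * c.k) (M.ex s.1 s.2) y * _ = _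
      ring
    · rw [pr_zero _ _ _ (fun z hz h0 h1 => hs (hQ z hz h0 _ s h1)), ind_not hs]
      simp
  have hb2 : ∀ j, j + 1 ≤ M.jc → ∑ s : G × ZMod m, ∑ s' : G × ZMod m,
      sumL (6 * c.k) (fun z => M.R ω (fun w => g.W w ∨ D0 w) (X ^ 5 * q) t x y z *
        ind (z[j]? = some s ∧ z[j + 1]? = some s')) *
        |Fp u v (j + 1) s.1 - Fp u v (j + 1 + 1) s'.1| ≤
      5 * X ^ 5 * Bil g lv u v M (ω t) j (M.Fn (ω t) 0 (M.C 0 x) j)
        (M.Gn (ω t) (fun _ => 1) (M.jc - j - 1) (j + 2)) := by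
    intro j hj
    unfold Bil
    rw [Finset.mul_sum]
    refine Finset.sum_le_sum fun s _ => ?_
    rw [Finset.mul_sum]
    refine Finset.sum_le_sum fun s' _ => ?_
    by_cases hs : Qs g lv s ∧ Qs g lv s'
    · rw [ind_of hs.1, ind_of hs.2]
      refine (mul_le_mul_of_nonneg_right (r5 j s s' hj)
        (abs_nonneg (Fp u v (j + 1) s.1 - Fp u v (j + 1 + 1) s'.1))).trans (le_of_eq ?_)
      show _ * |Fp u v (j + 1) s.1 - Fp u v (j + 2) s'.1| = _
      ring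
    · rw [pr_zero _ _ _ (fun z hz h0 h1 => hs ⟨hQ z hz h0 _ s h1.1, hQ z hz h0 _ s' h1.2⟩),
        ← ind_and, ind_not hs]
      simp
  have hb4 : ∀ j, M.jc ≤ j → j + 1 < 6 * c.k → ∑ s : G × ZMod m, ∑ s' : G × ZMod m,
      sumL (6 * c.k) (fun z => M.R ω (fun w => g.W w ∨ D0 w) (X ^ 5 * q) t x y z *
        ind (z[j]? = some s ∧ z[j + 1]? = some s')) *
        |Fp u v (j + 1) s.1 - Fp u v (j + 1 + 1) s'.1| ≤
      5 * X ^ 5 * Bil g lv u v M (ω t) j (M.Fn (ω t) M.jc (fun _ => 1) (j - M.jc))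
        (M.Gn (ω t) (fun w => M.C (6 * c.k) w y) (6 * c.k - 2 - j) (j + 2)) := by
    intro j hj hj2
    unfold Bil
    rw [Finset.mul_sum]
    refine Finset.sum_le_sum fun s _ => ?_
    rw [Finset.mul_sum]
    refine Finset.sum_le_sum fun s' _ => ?_
    by_cases hs : Qs g lv s ∧ Qs g lv s'
    · rw [ind_of hs.1, ind_of hs.2]
      refine (mul_le_mul_of_nonneg_right (r6 j s s' hj hj2)
        (abs_nonneg (Fp u v (j + 1) s.1 - Fp u v (j + 1 + 1) s'.1))).trans (le_of_eq ?_)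
      show _ * |Fp u v (j + 1) s.1 - Fp u v (j + 2) s'.1| = _
      ring
    · rw [pr_zero _ _ _ (fun z hz h0 h1 => hs ⟨hQ z hz h0 _ s h1.1, hQ z hz h0 _ s' h1.2⟩),
        ← ind_and, ind_not hs]
      simp
  rw [← Finset.sum_range_add_sum_Ico _ (show M.jc ≤ 6 * c.k - 1 by omega)]
  unfold LXt LYt
  have f1 : ∑ s : G × ZMod m, sumL (6 * c.k) (fun z =>
      M.R ω (fun w => g.W w ∨ D0 w) (X ^ 5 * q) t x y z * ind (z[0]? = some s)) *
        |u x - Fp u v (0 + 1) s.1| ≤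
      5 * X ^ 5 * EX g lv u v M (ω t) (M.Gn (ω t) (fun _ => 1) M.jc 1) x := by
    unfold EX
    rw [Finset.mul_sum]
    exact Finset.sum_le_sum fun s _ => hb1 s
  have f3 : ∑ s : G × ZMod m, sumL (6 * c.k) (fun z =>
      M.R ω (fun w => g.W w ∨ D0 w) (X ^ 5 * q) t x y z * ind (z[6 * c.k - 1]? = some s)) *
        |Fp u v (6 * c.k - 1 + 1) s.1 - v y| ≤
      5 * X ^ 5 * EY g lv u v M (ω t) (M.Fn (ω t) M.jc (fun _ => 1) (6 * c.k - 1 - M.jc)) y := by
    unfold EY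
    rw [Finset.mul_sum]
    exact Finset.sum_le_sum fun s _ => hb3 s
  have f2 := Finset.sum_le_sum (s := Finset.range M.jc)
    (fun j hj => hb2 j (Finset.mem_range.1 hj))
  have f4 := Finset.sum_le_sum (s := Finset.Ico M.jc (6 * c.k - 1))
    (fun j hj => hb4 j (Finset.mem_Ico.1 hj).1 (by have := (Finset.mem_Ico.1 hj).2; omega))
  rw [← Finset.mul_sum] at f2 f4
  refine (add_le_add (add_le_add f1 (add_le_add f2 f4)) f3).trans (le_of_eq ?_)
  ring

/-- Coefficient of `UM B`. -/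
noncomputable def hh (τ : Bool) (M : LM G (ZMod m) (6 * c.k)) : ℝ :=
  if τ then 8 * M.H0 * c.X else 4

/-- Coefficient of `UM C`. -/
noncomputable def ee (τ : Bool) : ℝ := if τ then 4 else 0

/-- The constant of one colour. -/
noncomputable def kap1 (τ : Bool) (M : LM G (ZMod m) (6 * c.k)) : ℝ :=
  M.H0 * hh τ M * (2 / m)

/-- The constant of one colour and one step. -/
noncomputable def kap2 (τ : Bool) (M : LM G (ZMod m) (6 * c.k)) : ℝ :=
  M.H0 ^ 2 * (2 / m) * (hh τ M * (2 / m) + ee τ * c.X ^ 100)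

theorem hh_ge (hX : 1 ≤ c.X) (τ : Bool) (M : LM G (ZMod m) (6 * c.k)) : 2 ≤ hh τ M := by
  have hHX : 1 ≤ M.H0 * c.X := one_le_mul_of_one_le_of_one_le M.hH0 hX
  unfold hh
  cases τ with
  | false => norm_num
  | true =>
    simp only [if_true]
    nlinarith

theorem ee_nonneg (τ : Bool) : 0 ≤ ee τ := by
  unfold ee
  split <;> norm_num

theorem kap1_nonneg (hX : 1 ≤ c.X) (τ : Bool) (M : LM G (ZMod m) (6 * c.k)) :
    0 ≤ kap1 τ M := by
  have h1 := hh_ge hX τ M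
  have h2 := M.hH0
  unfold kap1
  have h3 : 0 ≤ 2 / (m : ℝ) := div_nonneg (by norm_num) (Nat.cast_nonneg _)
  exact mul_nonneg (mul_nonneg (by linarith) (by linarith)) h3

theorem kap2_nonneg (hX : 1 ≤ c.X) (τ : Bool) (M : LM G (ZMod m) (6 * c.k)) :
    0 ≤ kap2 τ M := by
  have h1 := hh_ge hX τ M
  have h2 := M.hH0
  have h4 := ee_nonneg τ
  unfold kap2
  have h3 : 0 ≤ 2 / (m : ℝ) := div_nonneg (by norm_num) (Nat.cast_nonneg _)
  exact mul_nonneg (mul_nonneg (by positivity) h3)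
    (add_nonneg (mul_nonneg (by linarith) h3) (mul_nonneg h4 (by positivity)))

theorem bil_sum (hM : c.IsLev τ ρ m i M) (hρ : 0 < ρ) (hX : 1 ≤ c.X) (hm : 0 < (m : ℝ))
    (hb : 0 < c.b) (hi : τ = true → i = 0) (ω : Fld (6 * c.k) G (ZMod m)) (j : ℕ)
    (A B A1 B1 : G → ℝ) (hA : ∀ w, 0 ≤ A w) (hB : ∀ w, 0 ≤ B w)
    (hAB : ∀ w w', A w * B w' ≤ 2 / m * (A1 w * B1 w'))
    (hA0 : ∀ w, 0 ≤ A1 w) (hA1 : ∀ w, A1 w ≤ 4 * M.H0 * c.X) (hA2 : M.sp j → ∀ w, A1 w ≤ 2)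
    (hB0 : ∀ w, 0 ≤ B1 w) (hB1 : ∀ w, B1 w ≤ 4 * M.H0 * c.X)
    (hB2 : M.sp (j + 2) → ∀ w, B1 w ≤ 2) :
    Bil g lv u v M ω j A B ≤ kap2 τ M * g.bc lv u v i := by
  have h3 : 0 ≤ 2 / (m : ℝ) := div_nonneg (by norm_num) hm.le
  have h4 := hh_ge hX τ M
  have h5 := ee_nonneg τ
  have h1 := bil_le g lv u v i hM hρ hm ω j A B hA hB (2 / m * hh τ M) (2 / m * ee τ)
    (fun w w' => by
      have h2 := acb i hM hX j (A1 w) (B1 w') w w' (hA0 w) (hA1 w) (fun h => hA2 h w) (hB0 w')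
        (hB1 w') (fun h => hB2 h w')
      calc A w * M.C (j + 1) w w' * B w' = M.C (j + 1) w w' * (A w * B w') := by ring
        _ ≤ M.C (j + 1) w w' * (2 / m * (A1 w * B1 w')) :=
          mul_le_mul_of_nonneg_left (hAB w w') (M.hC0 _ _ _)
        _ = 2 / m * (A1 w * M.C (j + 1) w w' * B1 w') := by ring
        _ ≤ 2 / m * K2 c (hh τ M) (ee τ) w w' := mul_le_mul_of_nonneg_left h2 h3
        _ = _ := by
          unfold K2
          ring)
  have h6 := SK_le g lv u v i (by linarith) hm hb (2 / m * hh τ M) (2 / m * ee τ)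
    (mul_nonneg h3 (by linarith)) (mul_nonneg h3 h5) (by
      cases τ with
      | false =>
        left
        unfold ee
        simp
      | true => exact Or.inr (hi rfl))
  refine h1.trans ((mul_le_mul_of_nonneg_left h6 (by positivity)).trans (le_of_eq ?_))
  unfold kap2
  ring

theorem bc_nonneg (hX : 0 < c.X) : 0 ≤ g.bc lv u v i := by
  unfold Gad.bc
  exact Finset.sum_nonneg fun x _ => Finset.sum_nonneg fun y _ =>
    mul_nonneg (mul_nonneg (ind_nonneg _) (add_nonneg (aB_nonneg g lv x y)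
      (aC_nonneg g lv hX x y))) (abs_nonneg _)

theorem lx_sum (hM : c.IsLev τ ρ m i M) (hρ : 0 < ρ) (hX : 1 ≤ c.X) (hm : 0 < (m : ℝ))
    (hb : 0 < c.b) (hi : τ = true → i = 0) (ω : Fld (6 * c.k) G (ZMod m))
    (hmass : M.massOK c.X ω)
    (he : ∀ z, ∑ x, UM c.B z x * ind (g.RR x ∧ lv x = i) ≤ 2 / m) :
    ∑ x, ind (g.RR x ∧ lv x = i) * LXt g lv u v M ω x ≤
      (kap1 τ M + 6 * c.k * kap2 τ M) * g.bc lv u v i := by
  obtain ⟨m1, m2, m3, m4⟩ := hmass
  have hjc := M.hjc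
  have hbc := bc_nonneg g lv u v i (by linarith : 0 < c.X)
  have hk2 := kap2_nonneg hX τ M
  have hone : ∀ w : G, (0 : ℝ) ≤ (fun _ : G => (1 : ℝ)) w := fun _ => zero_le_one
  unfold LXt
  simp_rw [mul_add, Finset.mul_sum]
  rw [Finset.sum_add_distrib, Finset.sum_comm (s := Finset.univ) (t := Finset.range M.jc)]
  have h1 := EX_le g lv u v i hM hρ (by linarith) hm hb ω (M.Gn ω (fun _ => 1) M.jc 1) (hh τ M)
    (gn_nonneg M ω _ _ hone)
    (fun w => (m3 1 M.jc w (by omega) (Or.inr ((hM.sp 1).2 (fun _ h => by omega)))).trans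
      (hh_ge hX τ M))
  have h2 : ∀ j ∈ Finset.range M.jc, ∑ x, ind (g.RR x ∧ lv x = i) *
      Bil g lv u v M ω j (M.Fn ω 0 (M.C 0 x) j) (M.Gn ω (fun _ => 1) (M.jc - j - 1) (j + 2)) ≤
      kap2 τ M * g.bc lv u v i := by
    intro j hj
    have hj' := Finset.mem_range.1 hj
    rw [bil_linA g lv u v M ω j Finset.univ (fun x => ind (g.RR x ∧ lv x = i))
      (fun x => M.Fn ω 0 (M.C 0 x) j)]
    have hG := gn_nonneg M ω (j + 2) (M.jc - j - 1) hone
    have hF := fn_nonneg M ω 0 j hone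
    refine bil_sum g lv u v i hM hρ hX hm hb hi ω j _ _ (M.Fn ω 0 (fun _ => 1) j)
      (M.Gn ω (fun _ => 1) (M.jc - j - 1) (j + 2)) ?_ hG ?_ hF ?_ ?_ hG ?_ ?_
    · exact fun w => Finset.sum_nonneg fun x _ => mul_nonneg (ind_nonneg _)
        (fn_nonneg M ω _ _ (fun v => M.hC0 _ _ _) w)
    · intro w w'
      rw [← mul_assoc]
      refine mul_le_mul_of_nonneg_right ?_ (hG w')
      refine fn_sum_le M ω Finset.univ (fun x => ind (g.RR x ∧ lv x = i)) 0 j
        (fun x => M.C 0 x) (2 / m) ?_ w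
      intro z
      refine le_trans (le_of_eq ?_) (he z)
      refine Finset.sum_congr rfl fun x _ => ?_
      rw [C_not3 i hM 0 (by omega), UM_symm c.hB, mul_comm]
    · exact fun w => m2 0 j w (by omega)
    · exact fun h w => m1 0 j w (by omega) (Or.inr (by rwa [Nat.zero_add]))
    · exact fun w => m4 (j + 2) _ w (by omega)
    · exact fun h w => m3 (j + 2) _ w (by omega) (Or.inr h)
  have h3 := Finset.sum_le_sum h2
  rw [Finset.sum_const, Finset.card_range, nsmul_eq_mul] at h3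
  have h4 : (M.jc : ℝ) * (kap2 τ M * g.bc lv u v i) ≤
      (6 * c.k : ℝ) * (kap2 τ M * g.bc lv u v i) := by
    refine mul_le_mul_of_nonneg_right ?_ (mul_nonneg hk2 hbc)
    exact_mod_cast hjc.le
  calc _ ≤ M.H0 * hh τ M * (2 / m * g.bc lv u v i) +
        (6 * c.k : ℝ) * (kap2 τ M * g.bc lv u v i) := add_le_add h1 (h3.trans h4)
    _ = _ := by
      unfold kap1
      ring

theorem ly_sum (hM : c.IsLev τ ρ m i M) (hρ : 0 < ρ) (hX : 1 ≤ c.X) (hm : 0 < (m : ℝ))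
    (hb : 0 < c.b) (hk : 1 ≤ c.k) (hi : τ = true → i = 0) (ω : Fld (6 * c.k) G (ZMod m))
    (hmass : M.massOK c.X ω)
    (he : ∀ z, ∑ x, UM c.B z x * ind (g.CC x ∧ lv x = i + 1) ≤ 2 / m) :
    ∑ y, ind (g.CC y ∧ lv y = i + 1) * LYt g lv u v M ω y ≤
      (kap1 τ M + 6 * c.k * kap2 τ M) * g.bc lv u v i := by
  obtain ⟨m1, m2, m3, m4⟩ := hmass
  have hjc := M.hjc
  have hbc := bc_nonneg g lv u v i (by linarith : 0 < c.X)
  have hk2 := kap2_nonneg hX τ M
  have hone : ∀ w : G, (0 : ℝ) ≤ (fun _ : G => (1 : ℝ)) w := fun _ => zero_le_one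
  unfold LYt
  simp_rw [mul_add, Finset.mul_sum]
  rw [Finset.sum_add_distrib, Finset.sum_comm (s := Finset.univ)
    (t := Finset.Ico M.jc (6 * c.k - 1))]
  have h1 := EY_le g lv u v i hM hρ (by linarith) hm hb hk ω
    (M.Fn ω M.jc (fun _ => 1) (6 * c.k - 1 - M.jc)) (hh τ M) (fn_nonneg M ω _ _ hone)
    (fun w => by
      unfold hh
      cases τ with
      | false =>
        have h5 := m1 M.jc (6 * c.k - 1 - M.jc) w (by omega)
          (Or.inr ((hM.sp _).2 (fun h => by simp at h)))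
        simp only [Bool.false_eq_true, if_false]
        linarith
      | true =>
        have h5 := m2 M.jc (6 * c.k - 1 - M.jc) w (by omega)
        have hHX : 1 ≤ M.H0 * c.X := one_le_mul_of_one_le_of_one_le M.hH0 hX
        simp only [if_true]
        nlinarith)
  have h2 : ∀ j ∈ Finset.Ico M.jc (6 * c.k - 1), ∑ y, ind (g.CC y ∧ lv y = i + 1) *
      Bil g lv u v M ω j (M.Fn ω M.jc (fun _ => 1) (j - M.jc))
        (M.Gn ω (fun w => M.C (6 * c.k) w y) (6 * c.k - 2 - j) (j + 2)) ≤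
      kap2 τ M * g.bc lv u v i := by
    intro j hj
    have hj' := Finset.mem_Ico.1 hj
    rw [bil_linB g lv u v M ω j Finset.univ (fun y => ind (g.CC y ∧ lv y = i + 1)) _
      (fun y => M.Gn ω (fun w => M.C (6 * c.k) w y) (6 * c.k - 2 - j) (j + 2))]
    have hG := gn_nonneg M ω (j + 2) (6 * c.k - 2 - j) hone
    have hF := fn_nonneg M ω M.jc (j - M.jc) hone
    refine bil_sum g lv u v i hM hρ hX hm hb hi ω j _ _ (M.Fn ω M.jc (fun _ => 1) (j - M.jc))
      (M.Gn ω (fun _ => 1) (6 * c.k - 2 - j) (j + 2)) hF ?_ ?_ hF ?_ ?_ hG ?_ ?_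
    · exact fun w => Finset.sum_nonneg fun x _ => mul_nonneg (ind_nonneg _)
        (gn_nonneg M ω _ _ (fun v => M.hC0 _ _ _) w)
    · intro w w'
      have h7 := gn_sum_le M ω Finset.univ (fun y => ind (g.CC y ∧ lv y = i + 1)) (j + 2)
        (6 * c.k - 2 - j) (fun y w => M.C (6 * c.k) w y) (2 / m) (by
          intro z
          refine le_trans (le_of_eq ?_) (he z)
          refine Finset.sum_congr rfl fun x _ => ?_
          rw [C_not3 i hM (6 * c.k) (by omega), mul_comm]) w'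
      calc _ ≤ M.Fn ω M.jc (fun _ => 1) (j - M.jc) w *
            (2 / m * M.Gn ω (fun _ => 1) (6 * c.k - 2 - j) (j + 2) w') :=
            mul_le_mul_of_nonneg_left h7 (hF w)
        _ = _ := by ring
    · exact fun w => m2 M.jc (j - M.jc) w (by omega)
    · exact fun h w => m1 M.jc (j - M.jc) w (by omega)
        (Or.inr (by rwa [show M.jc + (j - M.jc) = j by omega]))
    · exact fun w => m4 (j + 2) _ w (by omega)
    · exact fun h w => m3 (j + 2) _ w (by omega) (Or.inr h)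
  have h3 := Finset.sum_le_sum h2
  rw [Finset.sum_const, Nat.card_Ico, nsmul_eq_mul] at h3
  have h4 : ((6 * c.k - 1 - M.jc : ℕ) : ℝ) * (kap2 τ M * g.bc lv u v i) ≤
      (6 * c.k : ℝ) * (kap2 τ M * g.bc lv u v i) := by
    refine mul_le_mul_of_nonneg_right ?_ (mul_nonneg hk2 hbc)
    have h5 : 6 * c.k - 1 - M.jc ≤ 6 * c.k := by omega
    exact_mod_cast h5
  calc _ ≤ M.H0 * hh τ M * (2 / m * g.bc lv u v i) +
        (6 * c.k : ℝ) * (kap2 τ M * g.bc lv u v i) := add_le_add h1 (h3.trans h4)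
    _ = _ := by
      unfold kap1
      ring

/-- The general form of (5.1). -/
theorem gen (hR : RLAW_S.{u, 0}) (hKer : KER_S.{u}) (hNum : NUM_S.{u})
    (hM : c.IsLev τ ρ m i M) (hρ : 0 < ρ) (hi : τ = true → i = 0)
    (ω : Fin c.T → Fld (6 * c.k) G (ZMod m)) (D0 : G → Prop)
    (hfk : ∀ i' r x y, i' + r ≤ 6 * c.k → M.fk i' r x y = c.K τ true i' (r + 1) x y)
    (hgood : ∀ x y, x ≠ y → c.adm τ true 9 x y →
      ∃ t, M.fk 0 (6 * c.k) x y / 4 ≤
        M.Zg ω (fun w => g.W w ∨ D0 w) (c.X ^ 5 * c.q τ) t x y)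
    (hmass : ∀ t, M.massOK c.X (ω t))
    (hlv : ∀ v, ¬ g.W v → ¬ D0 v → ∀ t j l, val (ω t) j v = some l →
      (∀ t' < t, ∀ j' l', val (ω t') j' v ≠ some l') →
      (∀ j' l', val (ω t) j' v = some l' → j' = j) → lv v = l)
    (he2 : g.e2 lv) :
    ∃ LX LY : G → ℝ, (∀ x, 0 ≤ LX x) ∧ (∀ y, 0 ≤ LY y) ∧
      (∑ x, LX x ≤ 5 * c.X ^ 5 * c.T * (kap1 τ M + 6 * c.k * kap2 τ M) * g.bc lv u v i) ∧
      (∑ y, LY y ≤ 5 * c.X ^ 5 * c.T * (kap1 τ M + 6 * c.k * kap2 τ M) * g.bc lv u v i) ∧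
      ∀ x y, g.RR x → g.CC y → lv x = i → lv y = i + 1 → x ≠ y → c.adm τ true 9 x y →
        |u x - v y| ≤ LX x + LY y := by
  obtain ⟨n1, _, _, _, _, _, nq, nb, _⟩ := hNum G c
  have hX : 1 ≤ c.X := by linarith
  have hm : 0 < (m : ℝ) := by exact_mod_cast Nat.pos_of_ne_zero (NeZero.ne m)
  have hjc := M.hjc
  have h5 : 0 ≤ 5 * c.X ^ 5 := by positivity
  have hone : ∀ w : G, (0 : ℝ) ≤ (fun _ : G => (1 : ℝ)) w := fun _ => zero_le_one
  have hx0 : ∀ t x, 0 ≤ LXt g lv u v M (ω t) x := by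
    intro t x
    unfold LXt
    exact add_nonneg (EX_nonneg g lv u v M _ _ (gn_nonneg M _ _ _ hone) x)
      (Finset.sum_nonneg fun j _ => bil_nonneg g lv u v M _ _ _ _
        (fn_nonneg M _ _ _ (fun v => M.hC0 _ _ _)) (gn_nonneg M _ _ _ hone))
  have hy0 : ∀ t y, 0 ≤ LYt g lv u v M (ω t) y := by
    intro t y
    unfold LYt
    exact add_nonneg (EY_nonneg g lv u v M _ _ (fn_nonneg M _ _ _ hone) y)
      (Finset.sum_nonneg fun j _ => bil_nonneg g lv u v M _ _ _ _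
        (fn_nonneg M _ _ _ hone) (gn_nonneg M _ _ _ (fun v => M.hC0 _ _ _)))
  refine ⟨fun x => ∑ t, ind (g.RR x ∧ lv x = i) * (5 * c.X ^ 5 * LXt g lv u v M (ω t) x),
    fun y => ∑ t, ind (g.CC y ∧ lv y = i + 1) * (5 * c.X ^ 5 * LYt g lv u v M (ω t) y),
    fun x => Finset.sum_nonneg fun t _ => mul_nonneg (ind_nonneg _) (mul_nonneg h5 (hx0 t x)),
    fun y => Finset.sum_nonneg fun t _ => mul_nonneg (ind_nonneg _) (mul_nonneg h5 (hy0 t y)),
    ?_, ?_, ?_⟩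
  · show ∑ x, ∑ t, ind (g.RR x ∧ lv x = i) * (5 * c.X ^ 5 * LXt g lv u v M (ω t) x) ≤ _
    rw [Finset.sum_comm]
    have h1 : ∀ t ∈ (Finset.univ : Finset (Fin c.T)),
        ∑ x, ind (g.RR x ∧ lv x = i) * (5 * c.X ^ 5 * LXt g lv u v M (ω t) x) ≤
        5 * c.X ^ 5 * ((kap1 τ M + 6 * c.k * kap2 τ M) * g.bc lv u v i) := by
      intro t _
      have h2 := lx_sum g lv u v i hM hρ hX hm nb hi (ω t) (hmass t) (fun z => (he2 z i).2.1)
      refine le_trans (le_of_eq ?_) (mul_le_mul_of_nonneg_left h2 h5)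
      rw [Finset.mul_sum]
      exact Finset.sum_congr rfl fun x _ => by ring
    refine (Finset.sum_le_sum h1).trans (le_of_eq ?_)
    rw [Finset.sum_const, Finset.card_univ, Fintype.card_fin, nsmul_eq_mul]
    ring
  · show ∑ y, ∑ t, ind (g.CC y ∧ lv y = i + 1) * (5 * c.X ^ 5 * LYt g lv u v M (ω t) y) ≤ _
    rw [Finset.sum_comm]
    have h1 : ∀ t ∈ (Finset.univ : Finset (Fin c.T)),
        ∑ y, ind (g.CC y ∧ lv y = i + 1) * (5 * c.X ^ 5 * LYt g lv u v M (ω t) y) ≤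
        5 * c.X ^ 5 * ((kap1 τ M + 6 * c.k * kap2 τ M) * g.bc lv u v i) := by
      intro t _
      have h2 := ly_sum g lv u v i hM hρ hX hm nb c.hk1 hi (ω t) (hmass t)
        (fun z => (he2 z (i + 1)).2.2)
      refine le_trans (le_of_eq ?_) (mul_le_mul_of_nonneg_left h2 h5)
      rw [Finset.mul_sum]
      exact Finset.sum_congr rfl fun x _ => by ring
    refine (Finset.sum_le_sum h1).trans (le_of_eq ?_)
    rw [Finset.sum_const, Finset.card_univ, Fintype.card_fin, nsmul_eq_mul]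
    ring
  · intro x y hRx hCy hlx hly hxy hadm
    obtain ⟨t, ht⟩ := hgood x y hxy hadm
    have hadm' : c.adm τ true 100 x y := by
      obtain ⟨j, h1, h2, h3⟩ := hadm
      exact ⟨j, h1, by omega, h3⟩
    obtain ⟨_, _, _, _, _, _, _, _, k9, _⟩ := hKer G c τ true
    have hf : (9 / 10 : ℝ) * c.q τ ≤ M.fk 0 (6 * c.k) x y := by
      rw [hfk 0 (6 * c.k) x y (by omega)]
      have := k9 x y hadm'
      simpa [Ctx.len] using this
    have hp := point g lv u v hR c.hk1 M ω D0 c.X (c.q τ) hX (nq τ) t x y hf ht hlv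
    have e1 : ind (g.RR x ∧ lv x = i) = 1 := ind_of ⟨hRx, hlx⟩
    have e2 : ind (g.CC y ∧ lv y = i + 1) = 1 := ind_of ⟨hCy, hly⟩
    refine hp.trans (add_le_add ?_ ?_)
    · have h6 := Finset.single_le_sum (f := fun t => ind (g.RR x ∧ lv x = i) *
        (5 * c.X ^ 5 * LXt g lv u v M (ω t) x)) (fun t _ => mul_nonneg (ind_nonneg _)
          (mul_nonneg h5 (hx0 t x))) (Finset.mem_univ t)
      refine le_trans (le_of_eq ?_) h6
      show _ = ind (g.RR x ∧ lv x = i) * (5 * c.X ^ 5 * LXt g lv u v M (ω t) x)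
      rw [e1, one_mul]
    · have h6 := Finset.single_le_sum (f := fun t => ind (g.CC y ∧ lv y = i + 1) *
        (5 * c.X ^ 5 * LYt g lv u v M (ω t) y)) (fun t _ => mul_nonneg (ind_nonneg _)
          (mul_nonneg h5 (hy0 t y))) (Finset.mem_univ t)
      refine le_trans (le_of_eq ?_) h6
      show _ = ind (g.CC y ∧ lv y = i + 1) * (5 * c.X ^ 5 * LYt g lv u v M (ω t) y)
      rw [e2, one_mul]

theorem numk (hNum : NUM_S.{u}) (c : Ctx G) :
    (10 ^ 6 : ℝ) ≤ c.X ∧ (10 ^ 6 * c.k : ℝ) ≤ c.X ∧ (10 ^ 6 * c.T : ℝ) ≤ c.X := by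
  obtain ⟨n1, n2, n3, _⟩ := hNum G c
  have hk : (1 : ℝ) ≤ c.k := by exact_mod_cast c.hk1
  have hT : (1 : ℝ) ≤ c.T := by exact_mod_cast c.hT1
  refine ⟨n1, ?_, ?_⟩
  · exact (le_self_pow₀ (by linarith : (1 : ℝ) ≤ 10 ^ 6 * c.k) (by norm_num)).trans n2
  · exact (le_self_pow₀ (by linarith : (1 : ℝ) ≤ 10 ^ 6 * c.T) (by norm_num)).trans n3

theorem num0 (hNum : NUM_S.{u}) (hM : c.IsLev false (1 / c.X ^ 5) m i M) (hm : 0 < (m : ℝ)) :
    5 * c.X ^ 5 * c.T * (kap1 false M + 6 * c.k * kap2 false M) ≤ c.X ^ 20 := by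
  obtain ⟨hX, hk, hT⟩ := numk hNum c
  have hX0 : 0 < c.X := by linarith
  have hT0 : (0 : ℝ) ≤ c.T := Nat.cast_nonneg _
  have hk0 : (0 : ℝ) ≤ c.k := Nat.cast_nonneg _
  have hH : M.H0 = m * c.X ^ 5 := by
    rw [hM.H0]
    field_simp
  have h1 : 5 * c.X ^ 5 * c.T * (kap1 false M + 6 * c.k * kap2 false M) =
      40 * c.T * c.X ^ 10 + 480 * (c.T * c.k) * c.X ^ 15 := by
    unfold kap1 kap2 hh ee
    rw [hH]
    simp only [Bool.false_eq_true, if_false]
    field_simp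
    ring
  rw [h1]
  have h2 : 40 * (c.T : ℝ) ≤ c.X := by linarith
  have h3 : (10 ^ 6 * c.T : ℝ) * (10 ^ 6 * c.k) ≤ c.X * c.X :=
    mul_le_mul hT hk (by positivity) hX0.le
  have h4 : 480 * ((c.T : ℝ) * c.k) ≤ c.X ^ 2 := by
    have : 0 ≤ (c.T : ℝ) * c.k := mul_nonneg hT0 hk0
    nlinarith
  have h5 : 40 * (c.T : ℝ) * c.X ^ 10 ≤ c.X * c.X ^ 10 :=
    mul_le_mul_of_nonneg_right h2 (by positivity)
  have h6 : 480 * ((c.T : ℝ) * c.k) * c.X ^ 15 ≤ c.X ^ 2 * c.X ^ 15 :=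
    mul_le_mul_of_nonneg_right h4 (by positivity)
  have h7 : c.X ^ 11 ≤ c.X ^ 17 := pow_le_pow_right₀ (by linarith) (by norm_num)
  have h8 : 2 * c.X ^ 17 ≤ c.X ^ 18 := by
    rw [pow_succ c.X 17]
    nlinarith [pow_pos hX0 17]
  have h9 : c.X ^ 18 ≤ c.X ^ 20 := pow_le_pow_right₀ (by linarith) (by norm_num)
  have h10 : c.X * c.X ^ 10 = c.X ^ 11 := by ring
  have h11 : c.X ^ 2 * c.X ^ 15 = c.X ^ 17 := by ring
  linarith

theorem num1 (hNum : NUM_S.{u}) (hM : c.IsLev true (1 / c.X ^ 5) m i M) (hm : 0 < (m : ℝ)) :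
    5 * c.X ^ 5 * c.T * (kap1 true M + 6 * c.k * kap2 true M) ≤
      c.X ^ 30 * (m * c.X ^ 100) := by
  obtain ⟨hX, hk, hT⟩ := numk hNum c
  have hX0 : 0 < c.X := by linarith
  have hT0 : (0 : ℝ) ≤ c.T := Nat.cast_nonneg _
  have hk0 : (0 : ℝ) ≤ c.k := Nat.cast_nonneg _
  have hH : M.H0 = m * c.X ^ 5 := by
    rw [hM.H0]
    field_simp
  have h1 : 5 * c.X ^ 5 * c.T * (kap1 true M + 6 * c.k * kap2 true M) =
      m * (80 * c.T * c.X ^ 16 + (c.T * c.k) * (960 * c.X ^ 21 + 240 * c.X ^ 115)) := by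
    unfold kap1 kap2 hh ee
    rw [hH]
    simp only [if_true]
    field_simp
    ring
  rw [h1]
  have h3 : (10 ^ 6 * c.T : ℝ) * (10 ^ 6 * c.k) ≤ c.X * c.X :=
    mul_le_mul hT hk (by positivity) hX0.le
  have h2 : 80 * (c.T : ℝ) ≤ c.X := by linarith
  have h4 : ((c.T : ℝ) * c.k) * 1200 ≤ c.X ^ 2 := by
    have : 0 ≤ (c.T : ℝ) * c.k := mul_nonneg hT0 hk0
    nlinarith
  have h5 : 80 * (c.T : ℝ) * c.X ^ 16 ≤ c.X * c.X ^ 16 :=
    mul_le_mul_of_nonneg_right h2 (by positivity)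
  have h12 : c.X ^ 21 ≤ c.X ^ 115 := pow_le_pow_right₀ (by linarith) (by norm_num)
  have h6 : ((c.T : ℝ) * c.k) * (960 * c.X ^ 21 + 240 * c.X ^ 115) ≤ c.X ^ 2 * c.X ^ 115 := by
    calc ((c.T : ℝ) * c.k) * (960 * c.X ^ 21 + 240 * c.X ^ 115)
        ≤ ((c.T : ℝ) * c.k) * (960 * c.X ^ 115 + 240 * c.X ^ 115) :=
          mul_le_mul_of_nonneg_left (by linarith) (mul_nonneg hT0 hk0)
      _ = ((c.T : ℝ) * c.k) * 1200 * c.X ^ 115 := by ring
      _ ≤ _ := mul_le_mul_of_nonneg_right h4 (by positivity)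
  have h7 : c.X ^ 17 ≤ c.X ^ 117 := pow_le_pow_right₀ (by linarith) (by norm_num)
  have h8 : 2 * c.X ^ 117 ≤ c.X ^ 118 := by
    rw [pow_succ c.X 117]
    nlinarith [pow_pos hX0 117]
  have h9 : c.X ^ 118 ≤ c.X ^ 130 := pow_le_pow_right₀ (by linarith) (by norm_num)
  have h10 : c.X * c.X ^ 16 = c.X ^ 17 := by ring
  have h11 : c.X ^ 2 * c.X ^ 115 = c.X ^ 117 := by ring
  calc m * (80 * c.T * c.X ^ 16 + (c.T * c.k) * (960 * c.X ^ 21 + 240 * c.X ^ 115))
      ≤ (m : ℝ) * c.X ^ 130 := mul_le_mul_of_nonneg_left (by linarith) hm.le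
    _ = _ := by ring

end model

end Pool.Agent.Lib.MP_688fd0_co.TE.H35.PpdAux

namespace Pool.Agent.Lib.MP_688fd0_co.TE.H35

open Pool.Agent.Lib.MP_688fd0_co.TE PpdAux

universe u

/-- PPD: (5.1) from the good outcomes of the fields. -/
theorem ppd (hR : RLAW_S.{u, 0}) (hKer : KER_S.{u}) (hNum : NUM_S.{u}) : PPD_S.{u} := by
  intro G _ _ _ c N g m _ τ M lv ω D0 _ hmOK hM hfk hgood hmass hlv _ he2
  obtain ⟨n1, _⟩ := hNum G c
  have hX0 : 0 < c.X := by linarith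
  have hρ : 0 < 1 / c.X ^ 5 := by positivity
  have hm : 0 < (m : ℝ) := by exact_mod_cast Nat.pos_of_ne_zero (NeZero.ne m)
  constructor
  · intro hτ
    subst hτ
    intro u v i
    obtain ⟨LX, LY, h1, h2, h3, h4, h5⟩ := gen g lv u v i hR hKer hNum (hM i) hρ
      (fun h => by simp at h) ω D0 (hfk i) (hgood i) (hmass i) hlv he2
    have hbc := bc_nonneg g lv u v i hX0
    have hn := mul_le_mul_of_nonneg_right (num0 (i := i) hNum (hM i) hm) hbc
    refine ⟨LX, LY, h1, h2, h3.trans hn, h4.trans hn, ?_⟩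
    intro x y a1 a2 a3 a4 a5 a6
    exact h5 x y a1 a2 a3 a4 a5 (by simpa [Ctx.adm, Lt] using a6)
  · intro hτ
    subst hτ
    intro u v
    obtain ⟨LX, LY, h1, h2, h3, h4, h5⟩ := gen g lv u v 0 hR hKer hNum (hM 0) hρ
      (fun _ => rfl) ω D0 (hfk 0) (hgood 0) (hmass 0) hlv he2
    have hbc := bc_nonneg g lv u v 0 hX0
    have hn := mul_le_mul_of_nonneg_right (num1 (i := 0) hNum (hM 0) hm) hbc
    refine ⟨LX, LY, h1, h2, h3.trans hn, h4.trans hn, ?_⟩
    intro x y a1 a2 a3 a4 a5 a6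
    exact h5 x y a1 a2 a3 (by rw [a4, zero_add]) a5 a6

end Pool.Agent.Lib.MP_688fd0_co.TE.H35
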